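import Pool.Agent.Results.MP_7f4e13_co.InducedGrid

/-! The double ladder statement is the instance `j = 3` of the induced grid theorem. -/

namespace Pool.Agent.Work.MP_7f4e13_co.Hedge

theorem double_ladder : ∃ f : ℕ → ℕ → ℕ, ∀ k d : ℕ, 0 < k → 0 < d →
    ∀ (V : Type) [Finite V] (G : SimpleGraph V),
      IsEmpty (completeBipartiteGraph (Fin 1) (Fin d) ↪g G) → f k d ≤ treeAlpha G →
      IsIndMinor (SimpleGraph.pathGraph 3 □ SimpleGraph.pathGraph k) G :=
  let ⟨f, hf⟩ := Pool.Agent.Results.MP_7f4e13_co.InducedGrid.result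
  ⟨f 3, fun k d => hf 3 k d (by norm_num)⟩

end Pool.Agent.Work.MP_7f4e13_co.Hedge
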