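import Pool.Agent.Work.MP_7f4e13_co.Bridge

-- merged part: Pool.Agent.Work.MP_7f4e13_co.Chain
section
/-! Chains of connected sets attached to two rails give the double ladder. -/

namespace Pool.Agent.Work.MP_7f4e13_co

open Pool.Agent.Work.MP_97603a_co Set

variable {V : Type} {G : SimpleGraph V}

/-- disjoint connected sets `K 0, ..., K n`, consecutive ones joined by an edge -/
structure Chain (G : SimpleGraph V) (K : ℕ → Set V) (n : ℕ) : Prop where
  conn : ∀ i ≤ n, Conn G (K i)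
  disj : ∀ i ≤ n, ∀ j ≤ n, i ≠ j → Disjoint (K i) (K j)
  nb : ∀ i < n, Nb G (K i) (K (i + 1))

/-- a connected set attached to two rails -/
structure Obj (G : SimpleGraph V) (A C K : Set V) (a c : V) : Prop where
  conn : Conn G K
  dA : Disjoint K A
  dC : Disjoint K C
  a_mem : a ∈ A
  c_mem : c ∈ C
  nA : Nb G K {a}
  nC : Nb G K {c}

lemma Obj.union {A C K K' : Set V} {a c : V} (h : Obj G A C K a c) (hc : Conn G (K ∪ K'))
    (hA : Disjoint K' A) (hC : Disjoint K' C) : Obj G A C (K ∪ K') a c :=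
  ⟨hc, disjoint_union_left.2 ⟨h.dA, hA⟩, disjoint_union_left.2 ⟨h.dC, hC⟩, h.a_mem, h.c_mem,
    h.nA.mono subset_union_left subset_rfl, h.nC.mono subset_union_left subset_rfl⟩

variable {K : ℕ → Set V} {n : ℕ}

lemma Chain.rev (h : Chain G K n) : Chain G (fun i => K (n - i)) n :=
  ⟨fun i _ => h.conn _ (by omega), fun i _ j _ e => h.disj _ (by omega) _ (by omega) (by omega),
    fun i hi => by
      have := (h.nb (n - (i + 1)) (by omega)).symm
      rwa [show n - (i + 1) + 1 = n - i by omega] at this⟩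

lemma Chain.conn_Icc (h : Chain G K n) {a b : ℕ} (hab : a ≤ b) (hb : b ≤ n) :
    Conn G (⋃ i ∈ Icc a b, K i) := by
  induction b, hab using Nat.le_induction with
  | base => simpa using h.conn a hb
  | succ b hab ih =>
    have : Icc a (b + 1) = insert (b + 1) (Icc a b) := by
      ext i; simp only [mem_Icc, mem_insert_iff]; omega
    rw [this, biUnion_insert, union_comm]
    exact (ih (by omega)).union (h.conn _ hb) (Or.inr ((h.nb b (by omega)).mono
      (subset_biUnion_of_mem (u := K) (show b ∈ Icc a b from ⟨hab, le_rfl⟩)) subset_rfl))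

lemma Chain.cut_mono (h : Chain G K n) {k : ℕ} {σ : ℕ → ℕ} (hσ : ∀ i ≤ k, σ i ≤ n)
    (hm : ∀ i j, i < j → j ≤ k → σ i < σ j) :
    ∃ R, Chain G R k ∧ ∀ i ≤ k, K (σ i) ⊆ R i ∧ R i ⊆ ⋃ j ∈ Iic n, K j := by
  let τ : ℕ → ℕ := fun i => if i < k then σ (i + 1) - 1 else σ i
  have h1 : ∀ i ≤ k, σ i ≤ τ i ∧ τ i ≤ n := by
    intro i hi
    simp only [τ]
    split_ifs with e
    · have := hm i (i + 1) (by omega) e
      have := hσ (i + 1) e
      omega
    · exact ⟨le_rfl, hσ i hi⟩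
  have h2 : ∀ i j, i < j → j ≤ k → τ i < σ j := by
    intro i j hij hj
    simp only [τ, show i < k by omega, if_true]
    have := hm i (i + 1) (by omega) (by omega)
    rcases (show i + 1 ≤ j from hij).eq_or_lt with e | e
    · rw [← e]; omega
    · have := hm _ _ e hj; omega
  have h3 : ∀ i j, i < j → j ≤ k →
      Disjoint (⋃ l ∈ Icc (σ i) (τ i), K l) (⋃ l ∈ Icc (σ j) (τ j), K l) := by
    intro i j hij hj
    simp only [disjoint_iUnion_left, disjoint_iUnion_right]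
    intro l hl l' hl'
    have := h2 i j hij hj
    have := h1 j hj
    have := hl.1
    have := hl.2
    have := hl'.2
    exact h.disj _ (by omega) _ (by omega) (by omega)
  refine ⟨fun i => ⋃ l ∈ Icc (σ i) (τ i), K l, ⟨fun i hi => h.conn_Icc (h1 i hi).1 (h1 i hi).2,
    fun i hi j hj e => ?_, fun i hi => ?_⟩, fun i hi => ⟨?_, ?_⟩⟩
  · rcases lt_or_gt_of_ne e with e | e
    · exact h3 i j e hj
    · exact (h3 j i e hi).symm
  · have h4 : τ i + 1 = σ (i + 1) := by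
      have := hm i (i + 1) (by omega) hi
      simp only [τ, hi, if_true]
      omega
    have h5 := h.nb (τ i) (by have := hσ (i + 1) hi; omega)
    rw [h4] at h5
    exact h5.mono
      (subset_biUnion_of_mem (u := K) (show τ i ∈ Icc _ _ from ⟨(h1 i hi.le).1, le_rfl⟩))
      (subset_biUnion_of_mem (u := K) (show σ (i + 1) ∈ Icc _ _ from ⟨le_rfl, (h1 _ hi).1⟩))
  · exact subset_biUnion_of_mem (u := K) (show σ i ∈ Icc _ _ from ⟨le_rfl, (h1 _ hi).1⟩)
  · exact biUnion_subset_biUnion_left fun l hl => hl.2.trans (h1 i hi).2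

lemma Pth.chain (P : Pth G) : Chain G (fun i => {P.p i}) P.m :=
  ⟨fun _ _ => conn_singleton _, fun i hi j hj e => by
    simpa using fun e' => e (P.inj i hi j hj e'), fun i hi => ⟨_, rfl, _, rfl, P.adj i hi⟩⟩

lemma Pth.cut (P : Pth G) {k : ℕ} {σ : ℕ → ℕ} (hσ : ∀ i ≤ k, σ i ≤ P.m)
    (hm : (∀ i j, i < j → j ≤ k → σ i < σ j) ∨ ∀ i j, i < j → j ≤ k → σ j < σ i) :
    ∃ R, Chain G R k ∧ ∀ i ≤ k, P.p (σ i) ∈ R i ∧ R i ⊆ P.set := by
  rcases hm with hm | hm
  · obtain ⟨R, h1, h2⟩ := P.chain.cut_mono hσ hm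
    refine ⟨R, h1, fun i hi => ⟨(h2 i hi).1 rfl, (h2 i hi).2.trans ?_⟩⟩
    exact iUnion₂_subset fun j hj => singleton_subset_iff.2 (P.p_mem_set hj)
  · obtain ⟨R, h1, h2⟩ := P.chain.rev.cut_mono (k := k) (σ := fun i => P.m - σ i)
      (fun i _ => by omega) fun i j hij hj => by
        have := hm i j hij hj
        have := hσ i (by omega)
        omega
    refine ⟨R, h1, fun i hi => ⟨(h2 i hi).1 ?_, (h2 i hi).2.trans ?_⟩⟩
    · exact congrArg P.p (by have := hσ i hi; omega)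
    · exact iUnion₂_subset fun j hj => singleton_subset_iff.2 (P.p_mem_set (by omega))

lemma Chain.nb_of_adj {k : ℕ} (h : Chain G K k) {i j : Fin k}
    (e : (SimpleGraph.pathGraph k).Adj i j) : Nb G (K i) (K j) := by
  rcases SimpleGraph.pathGraph_adj.1 e with e | e
  · rw [← e]; exact h.nb i i.2
  · rw [← e]; exact (h.nb j j.2).symm

lemma minor_of_rows {k : ℕ} {R : Fin 3 → ℕ → Set V} (h : ∀ r, Chain G (R r) k)
    (hd : ∀ r r', r ≠ r' → ∀ i ≤ k, ∀ j ≤ k, Disjoint (R r i) (R r' j))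
    (h1 : ∀ i ≤ k, Nb G (R 1 i) (R 0 i)) (h2 : ∀ i ≤ k, Nb G (R 1 i) (R 2 i)) :
    Minor G (SimpleGraph.pathGraph 3 □ SimpleGraph.pathGraph k) := by
  refine ⟨fun w => R w.1 w.2, fun w => (h _).conn _ w.2.2.le, ?_, ?_⟩
  · rintro ⟨r, i⟩ ⟨r', j⟩ e
    by_cases e' : r = r'
    · subst e'
      exact (h r).disj _ i.2.le _ j.2.le fun e' => e (by rw [Fin.ext e'])
    · exact hd r r' e' _ i.2.le _ j.2.le
  · rintro ⟨r, i⟩ ⟨r', j⟩ (⟨e, e'⟩ | ⟨e, e'⟩)
    · obtain rfl : i = j := e'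
      have h3 := h1 i i.2.le
      have h4 := h2 i i.2.le
      rw [SimpleGraph.pathGraph_adj] at e
      fin_cases r <;> fin_cases r' <;>
        first | exact h3 | exact h4 | exact h3.symm | exact h4.symm | (exfalso; simp at e)
    · obtain rfl : r = r' := e'
      exact (h r).nb_of_adj e

theorem grid_of_chain (k : ℕ) : ∃ L : ℕ, ∀ (V : Type) (G : SimpleGraph V) (A C : Pth G)
    (K : ℕ → Set V) (a c : ℕ → V), Disjoint A.set C.set → Chain G K L →
    (∀ i ≤ L, Obj G A.set C.set (K i) (a i) (c i)) → InjOn a (Iic L) → InjOn c (Iic L) →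
    Minor G (SimpleGraph.pathGraph 3 □ SimpleGraph.pathGraph k) := by
  classical
  obtain ⟨N, -, hN⟩ := Pool.Agent.Lib.Ramsey.finite_ramsey (Prop × Prop) (k + 1)
  refine ⟨N, fun V G A C K a c hAC hK ho ha hc => ?_⟩
  choose! α hα hα' using fun i (hi : i ≤ N) => Pth.mem_set.1 (ho i hi).a_mem
  choose! γ hγ hγ' using fun i (hi : i ≤ N) => Pth.mem_set.1 (ho i hi).c_mem
  obtain ⟨g, hg, col, hcol⟩ := hN fun i j => (α i < α j, γ i < γ j)
  let σ : ℕ → ℕ := fun i => if h : i < k + 1 then g ⟨i, h⟩ else 0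
  have hσ : ∀ i ≤ k, σ i ≤ N := fun i hi => by
    simp only [σ, dif_pos (Nat.lt_succ_of_le hi)]; exact (g _).2.le
  have hm : ∀ i j, i < j → j ≤ k → σ i < σ j ∧ ((α (σ i) < α (σ j)) = col.1) ∧
      (γ (σ i) < γ (σ j)) = col.2 := by
    intro i j hij hj
    simp only [σ, dif_pos (Nat.lt_succ_of_le hj), dif_pos (show i < k + 1 by omega)]
    have := hcol ⟨i, by omega⟩ ⟨j, by omega⟩ hij
    exact ⟨hg (show (⟨i, by omega⟩ : Fin (k + 1)) < ⟨j, by omega⟩ from hij),
      congrArg Prod.fst this, congrArg Prod.snd this⟩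
  have key : ∀ (P : Pth G) (a : ℕ → V) (α : ℕ → ℕ) (p : Prop), InjOn a (Iic N) →
      (∀ i ≤ N, P.p (α i) = a i) → (∀ i j, i < j → j ≤ k → (α (σ i) < α (σ j)) = p) →
      (∀ i j, i < j → j ≤ k → α (σ i) < α (σ j)) ∨ ∀ i j, i < j → j ≤ k → α (σ j) < α (σ i) := by
    intro P a α p ha hα hp
    by_cases e : p
    · exact Or.inl fun i j hij hj => (hp i j hij hj).symm ▸ e
    · refine Or.inr fun i j hij hj => lt_of_le_of_ne (not_lt.1 ((hp i j hij hj).symm ▸ e)) ?_
      intro e'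
      have h1 := hσ i (by omega)
      have h2 := hσ j hj
      have h3 := ha h2 h1 (by rw [← hα _ h1, ← hα _ h2, e'])
      exact (hm i j hij hj).1.ne' h3
  obtain ⟨RA, hA1, hA2⟩ := A.cut (k := k) (σ := fun i => α (σ i)) (fun i hi => hα _ (hσ i hi))
    (key A a α _ ha hα' fun i j hij hj => (hm i j hij hj).2.1)
  obtain ⟨RC, hC1, hC2⟩ := C.cut (k := k) (σ := fun i => γ (σ i)) (fun i hi => hγ _ (hσ i hi))
    (key C c γ _ hc hγ' fun i j hij hj => (hm i j hij hj).2.2)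
  obtain ⟨RK, hK1, hK2⟩ := hK.cut_mono hσ fun i j hij hj => (hm i j hij hj).1
  have d1 : ∀ i ≤ k, ∀ j ≤ k, Disjoint (RK i) (RA j) := fun i hi j hj =>
    Disjoint.mono (hK2 i hi).2 (hA2 j hj).2 (by
      simp only [disjoint_iUnion_left]; exact fun l hl => (ho l hl).dA)
  have d2 : ∀ i ≤ k, ∀ j ≤ k, Disjoint (RK i) (RC j) := fun i hi j hj =>
    Disjoint.mono (hK2 i hi).2 (hC2 j hj).2 (by
      simp only [disjoint_iUnion_left]; exact fun l hl => (ho l hl).dC)
  have d3 : ∀ i ≤ k, ∀ j ≤ k, Disjoint (RA i) (RC j) := fun i hi j hj =>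
    hAC.mono (hA2 i hi).2 (hC2 j hj).2
  refine minor_of_rows (R := ![RA, RK, RC]) (fun r => ?_) (fun r r' e i hi j hj => ?_)
    (fun i hi => ?_) fun i hi => ?_
  · fin_cases r <;> assumption
  · fin_cases r <;> fin_cases r'
    exacts [absurd rfl e, (d1 j hj i hi).symm, d3 i hi j hj, d1 i hi j hj, absurd rfl e,
      d2 i hi j hj, (d3 j hj i hi).symm, (d2 j hj i hi).symm, absurd rfl e]
  · refine (ho _ (hσ i hi)).nA.mono (hK2 i hi).1 (singleton_subset_iff.2 ?_)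
    rw [← hα' _ (hσ i hi)]
    exact (hA2 i hi).1
  · refine (ho _ (hσ i hi)).nC.mono (hK2 i hi).1 (singleton_subset_iff.2 ?_)
    rw [← hγ' _ (hσ i hi)]
    exact (hC2 i hi).1

lemma exists_sorted {ι : Type} {S : Set ι} (hS : S.Finite) {y : ι → ℕ} (hy : InjOn y S) {L : ℕ}
    (h : L < S.ncard) : ∃ e : ℕ → ι, (∀ i ≤ L, e i ∈ S) ∧
      ∀ i j, i < j → j ≤ L → y (e i) < y (e j) := by
  have h1 : L + 1 ≤ (hS.image y).toFinset.card := by
    rw [← ncard_eq_toFinset_card _ (hS.image y), hy.ncard_image]; exact h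
  obtain ⟨T, hT, hc⟩ := Finset.exists_subset_card_eq h1
  have h2 : ∀ i : Fin (L + 1), ∃ x ∈ S, y x = T.orderEmbOfFin hc i := fun i => by
    simpa using hT (T.orderEmbOfFin_mem hc i)
  choose f hf hf' using h2
  refine ⟨fun i => f (Fin.ofNat _ i), fun i _ => hf _, fun i j hij hj => ?_⟩
  rw [hf', hf']
  refine (T.orderEmbOfFin hc).strictMono ?_
  rw [Fin.lt_def]
  simp only [Fin.val_ofNat]
  rw [Nat.mod_eq_of_lt (by omega), Nat.mod_eq_of_lt (by omega)]
  exact hij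

/-- objects hanging on a third rail -/
lemma chain_of_star {ι : Type} {S : Set ι} (hS : S.Finite) {L : ℕ} (hL : L < S.ncard)
    {A C : Set V} (B : Pth G) (hA : Disjoint B.set A) (hC : Disjoint B.set C) {O : ι → Set V}
    {a c : ι → V} (ho : ∀ x ∈ S, Obj G A C (O x) (a x) (c x))
    (hd : ∀ x ∈ S, ∀ x' ∈ S, x ≠ x' → Disjoint (O x) (O x')) (hB : ∀ x ∈ S, Disjoint (O x) B.set)
    {y : ι → ℕ} (hy : InjOn y S) (hy' : ∀ x ∈ S, y x ≤ B.m ∧ Nb G (O x) {B.p (y x)}) :
    ∃ (K : ℕ → Set V) (e : ℕ → ι), Chain G K L ∧ InjOn e (Iic L) ∧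
      ∀ i ≤ L, Obj G A C (K i) (a (e i)) (c (e i)) := by
  obtain ⟨e, he, hm⟩ := exists_sorted hS hy hL
  have hinj : InjOn e (Iic L) := fun i hi j hj e' => by
    by_contra hij
    rcases lt_or_gt_of_ne hij with h | h
    · exact (hm i j h hj).ne (by rw [e'])
    · exact (hm j i h hi).ne (by rw [e'])
  obtain ⟨R, h1, h2⟩ := B.cut (k := L) (σ := fun i => y (e i)) (fun i hi => (hy' _ (he i hi)).1)
    (Or.inl hm)
  have h3 : ∀ i ≤ L, Conn G (O (e i) ∪ R i) := fun i hi =>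
    (ho _ (he i hi)).conn.union (h1.conn i hi) (Or.inr ((hy' _ (he i hi)).2.mono subset_rfl
      (singleton_subset_iff.2 (h2 i hi).1)))
  refine ⟨fun i => O (e i) ∪ R i, e, ⟨h3, fun i hi j hj hij => ?_, fun i hi => ?_⟩, hinj,
    fun i hi => (ho _ (he i hi)).union (h3 i hi) (hA.mono_left (h2 i hi).2)
      (hC.mono_left (h2 i hi).2)⟩
  · simp only [disjoint_union_left, disjoint_union_right]
    exact ⟨⟨hd _ (he i hi) _ (he j hj) fun e' => hij (hinj hi hj e'),
      ((hB _ (he j hj)).mono_right (h2 i hi).2).symm⟩,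
      (hB _ (he i hi)).mono_right (h2 j hj).2, h1.disj i hi j hj hij⟩
  · exact (h1.nb i hi).mono subset_union_right subset_union_right

end Pool.Agent.Work.MP_7f4e13_co
end

-- merged part: Pool.Agent.Work.MP_7f4e13_co.Hedge.Cyl
section
/-! Many rows crossed by many consecutive connected sections give a grid minor. -/

namespace Pool.Agent.Work.MP_7f4e13_co.Hedge

open Pool.Agent.Work.MP_97603a_co Set

variable {V : Type} {G : SimpleGraph V}

/-- disjoint connected subsets of a connected set extend to a partition into connected sets -/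
lemma exists_part [Finite V] {ι : Type} [Nonempty ι] {S : Set V} (hS : Conn G S) (n : ℕ) :
    ∀ R : ι → Set V, (S \ ⋃ i, R i).ncard ≤ n → (∀ i, Conn G (R i)) → (∀ i, R i ⊆ S) →
      (∀ i j, i ≠ j → Disjoint (R i) (R j)) →
      ∃ U : ι → Set V, (∀ i, Conn G (U i)) ∧ (∀ i, R i ⊆ U i) ∧ (∀ i, U i ⊆ S) ∧
        (∀ i j, i ≠ j → Disjoint (U i) (U j)) ∧ ∀ v ∈ S, ∃ i, v ∈ U i := by
  classical
  induction n with
  | zero =>
    intro R hn hc hs hd
    refine ⟨R, hc, fun _ => subset_rfl, hs, hd, fun v hv => ?_⟩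
    by_contra h
    have h1 : v ∈ S \ ⋃ i, R i := ⟨hv, fun h' => h (mem_iUnion.1 h')⟩
    have := (ncard_pos (toFinite _)).2 ⟨v, h1⟩
    omega
  | succ n ih =>
    intro R hn hc hs hd
    by_cases hall : ∀ v ∈ S, ∃ i, v ∈ R i
    · exact ⟨R, hc, fun _ => subset_rfl, hs, hd, hall⟩
    push Not at hall
    obtain ⟨v, hv, hv'⟩ := hall
    obtain ⟨i0⟩ := ‹Nonempty ι›
    obtain ⟨a, ha⟩ := (hc i0).1
    rcases (hS.2 v hv a (hs i0 ha)).first_hit (⋃ i, R i) with h | ⟨c, hcR, -, rfl | ⟨c', h1, h2⟩⟩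
    · exact absurd (mem_iUnion.2 ⟨i0, ha⟩) h.right_mem.2
    · obtain ⟨i, hi⟩ := mem_iUnion.1 hcR
      exact absurd hi (hv' i)
    obtain ⟨i, hi⟩ := mem_iUnion.1 hcR
    have hc' := h1.right_mem
    have hc'' : ∀ j, c' ∉ R j := fun j hj => hc'.2 (mem_iUnion.2 ⟨j, hj⟩)
    have hsub : ∀ j, R j ⊆ (if j = i then R j ∪ {c'} else R j) := fun j => by
      split_ifs
      · exact subset_union_left
      · exact subset_rfl
    obtain ⟨U, u1, u2, u3, u4, u5⟩ := ih (fun j => if j = i then R j ∪ {c'} else R j)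
      (by
        have h3 : (S \ ⋃ j, (if j = i then R j ∪ {c'} else R j)) ⊂ S \ ⋃ j, R j := by
          refine ⟨diff_subset_diff_right (iUnion_mono hsub), fun h => ?_⟩
          exact (h hc').2 (mem_iUnion.2 ⟨i, by simp⟩)
        have := ncard_lt_ncard h3 (toFinite _)
        omega)
      (fun j => by
        split_ifs with e
        · exact (hc j).union (conn_singleton _) (Or.inr ⟨c, e ▸ hi, c', rfl, h2.symm⟩)
        · exact hc j)
      (fun j => by
        split_ifs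
        · exact union_subset (hs j) (singleton_subset_iff.2 hc'.1)
        · exact hs j)
      (fun j l e => by
        split_ifs with e1 e2 e2
        · exact absurd (e1.trans e2.symm) e
        · exact disjoint_union_left.2 ⟨hd j l e, disjoint_singleton_left.2 (hc'' l)⟩
        · exact disjoint_union_right.2 ⟨hd j l e, disjoint_singleton_right.2 (hc'' j)⟩
        · exact hd j l e)
    exact ⟨U, u1, fun j => (hsub j).trans (u2 j), u3, u4, u5⟩

/-- a large connected graph has a long path or a large star -/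
lemma exists_tuple (k : ℕ) (Γ : SimpleGraph (Fin ((k + 1) ^ k + 1)))
    (h : ∀ i j, Reach Γ.Adj univ i j) :
    ∃ x : Fin k → Fin ((k + 1) ^ k + 1), Function.Injective x ∧ ∀ i j : Fin k, i.1 + 1 = j.1 →
      Γ.Adj (x i) (x j) ∨ ∃ c, (∀ l, x l ≠ c) ∧ Γ.Adj (x i) c ∧ Γ.Adj c (x j) := by
  by_cases hdeg : DegLe Γ univ k
  · have h1 := ncard_ball_le hdeg (subset_univ {0}) k
    rw [ncard_singleton, one_mul] at h1
    obtain ⟨j, hj⟩ : ∃ j, j ∉ ball Γ univ {0} k := by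
      by_contra hc
      push Not at hc
      rw [eq_univ_of_forall hc, ncard_univ, Nat.card_eq_fintype_card, Fintype.card_fin] at h1
      omega
    obtain ⟨W, -, -, hW⟩ := exists_long_pth (h 0 j) hj
    refine ⟨fun i => W.p i, fun a b e => Fin.ext (W.inj a (by omega) b (by omega) e),
      fun a b e => Or.inl ?_⟩
    simp only [← e]
    exact W.adj a (by omega)
  · simp only [DegLe, not_forall, not_le] at hdeg
    obtain ⟨c, -, hc⟩ := hdeg
    obtain ⟨f, hf, hf'⟩ := exists_inj_fin (A := (toFinite (nbr Γ univ c)).toFinset) (s := k)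
      (by rw [← ncard_eq_toFinset_card]; omega)
    have hm : ∀ i, Γ.Adj c (f i) := fun i => by
      have : f i ∈ nbr Γ univ c := by simpa using hf' i
      exact this.2
    exact ⟨f, hf, fun a b _ => Or.inr ⟨c, fun l => (hm l).ne', (hm a).symm, hm b⟩⟩

/-- `p` rows cut into `d` consecutive segments, the segments number `a` lying in a connected
section -/
structure Cyl (G : SimpleGraph V) (p d : ℕ) (R : Fin p → ℕ → Set V) (Sec : ℕ → Set V) : Prop where
  conn : ∀ i, ∀ a < d, Conn G (R i a)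
  sub : ∀ i, ∀ a < d, R i a ⊆ Sec a
  sec : ∀ a < d, Conn G (Sec a)
  dsec : ∀ a < d, ∀ b < d, a ≠ b → Disjoint (Sec a) (Sec b)
  drow : ∀ a < d, ∀ i j, i ≠ j → Disjoint (R i a) (R j a)
  nb : ∀ i a, a + 1 < d → Nb G (R i a) (R i (a + 1))

lemma section_tuple [Finite V] (k : ℕ) {S : Set V} (hS : Conn G S)
    (R : Fin ((k + 1) ^ k + 1) → Set V) (hc : ∀ i, Conn G (R i)) (hs : ∀ i, R i ⊆ S)
    (hd : ∀ i j, i ≠ j → Disjoint (R i) (R j)) :
    ∃ (x : Fin k → Fin ((k + 1) ^ k + 1)) (U : Fin ((k + 1) ^ k + 1) → Set V)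
      (K : Fin k → Set V), Function.Injective x ∧ (∀ i, Conn G (U i)) ∧ (∀ i, R i ⊆ U i) ∧
      (∀ i, U i ⊆ S) ∧ (∀ i j, i ≠ j → Disjoint (U i) (U j)) ∧ (∀ i, K i ⊆ S) ∧
      (∀ i l, Disjoint (K i) (U (x l))) ∧ (∀ i, Conn G (U (x i) ∪ K i)) ∧
      ∀ i j : Fin k, i.1 + 1 = j.1 → Nb G (U (x i) ∪ K i) (U (x j)) := by
  obtain ⟨U, u1, u2, u3, u4, u5⟩ := exists_part hS _ R le_rfl hc hs hd
  let Γ : SimpleGraph (Fin ((k + 1) ^ k + 1)) :=
    { Adj := fun i j => i ≠ j ∧ Nb G (U i) (U j)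
      symm := ⟨fun _ _ h => ⟨h.1.symm, h.2.symm⟩⟩
      loopless := ⟨fun _ h => h.1 rfl⟩ }
  have hΓ : ∀ i j, Reach Γ.Adj univ i j := by
    intro i j
    obtain ⟨u, hu⟩ := (u1 i).1
    obtain ⟨v, hv⟩ := (u1 j).1
    refine (hS.2 u (u3 i hu) v (u3 j hv)).ind
      (P := fun y => ∀ l, y ∈ U l → Reach Γ.Adj univ i l) (fun l hl => ?_) ?_ j hv
    · by_cases e : i = l
      · exact e ▸ Reach.refl trivial
      · exact absurd hl (Set.disjoint_left.1 (u4 i l e) hu)
    · intro y z hy ih e _ l hl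
      obtain ⟨l', hl'⟩ := u5 y hy.right_mem
      by_cases e' : l' = l
      · exact e' ▸ ih l' hl'
      · exact (ih l' hl').tail ⟨e', y, hl', z, hl, e⟩ trivial
  obtain ⟨x, hx, hx'⟩ := exists_tuple k Γ hΓ
  have key : ∀ i : Fin k, ∃ K : Set V, K ⊆ S ∧ (∀ l, Disjoint K (U (x l))) ∧
      Conn G (U (x i) ∪ K) ∧ ∀ j : Fin k, i.1 + 1 = j.1 → Nb G (U (x i) ∪ K) (U (x j)) := by
    intro i
    by_cases hi : i.1 + 1 < k
    · rcases hx' i ⟨i.1 + 1, hi⟩ rfl with h | ⟨c, h1, h2, h3⟩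
      · refine ⟨∅, empty_subset _, fun l => empty_disjoint _, by simpa using u1 _, fun j e => ?_⟩
        obtain rfl : j = ⟨i.1 + 1, hi⟩ := Fin.ext e.symm
        exact h.2.mono subset_union_left subset_rfl
      · refine ⟨U c, u3 c, fun l => u4 _ _ (h1 l).symm, (u1 _).union (u1 c) (Or.inr h2.2),
          fun j e => ?_⟩
        obtain rfl : j = ⟨i.1 + 1, hi⟩ := Fin.ext e.symm
        exact h3.2.mono subset_union_right subset_rfl
    · exact ⟨∅, empty_subset _, fun l => empty_disjoint _, by simpa using u1 _,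
        fun j e => absurd (e ▸ j.2) hi⟩
  choose K k1 k2 k3 k4 using key
  exact ⟨x, U, K, hx, u1, u2, u3, u4, k1, k2, k3, k4⟩

theorem grid_of_cyl (k : ℕ) : ∃ p d : ℕ, ∀ (V : Type) [Finite V] (G : SimpleGraph V)
    (R : Fin (p + 1) → ℕ → Set V) (Sec : ℕ → Set V), Cyl G (p + 1) d R Sec →
    Minor G (SimpleGraph.pathGraph k □ SimpleGraph.pathGraph k) := by
  classical
  refine ⟨(k + 1) ^ k, ((k + 1) ^ k + 1) ^ k * (k * k) + 1, fun V _ G R Sec h => ?_⟩
  set d := ((k + 1) ^ k + 1) ^ k * (k * k) + 1 with hd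
  choose x U K hx u1 u2 u3 u4 k1 k2 k3 k4 using fun a : Fin d =>
    section_tuple k (h.sec a a.2) (fun i => R i a) (fun i => h.conn i a a.2)
      (fun i => h.sub i a a.2) (h.drow a a.2)
  obtain ⟨x0, -, hs⟩ := Finset.exists_lt_card_fiber_of_mul_lt_card_of_maps_to (s := Finset.univ)
    (t := Finset.univ) (f := x) (n := k * k) (fun _ _ => Finset.mem_univ _) (by simp [hd])
  obtain ⟨A, hA, hA'⟩ := Finset.exists_subset_card_eq (Nat.succ_le_of_lt hs)
  let σ' := A.orderEmbOfFin hA'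
  let σ : ℕ → Fin d := fun n => σ' ⟨min n (k * k), by omega⟩
  have hσx : ∀ n, x (σ n) = x0 := fun n =>
    (Finset.mem_filter.1 (hA (A.orderEmbOfFin_mem hA' _))).2
  have hσ : ∀ n n', n < n' → n' ≤ k * k → (σ n).1 < (σ n').1 := fun n n' h1 h2 =>
    σ'.strictMono (show min n (k * k) < min n' (k * k) by omega)
  have hσle : ∀ n n', n ≤ n' → n' ≤ k * k → (σ n).1 ≤ (σ n').1 := fun n n' h1 h2 => by
    rcases h1.eq_or_lt with rfl | h1
    · exact le_rfl
    · exact (hσ n n' h1 h2).le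
  have hx0 : Function.Injective x0 := hσx 0 ▸ hx (σ 0)
  let U' : Fin k → ℕ → Set V := fun i a => if h : a < d then U ⟨a, h⟩ (x0 i) else ∅
  have hU' : ∀ i (a : Fin d), U' i a = U a (x0 i) := fun i a => dif_pos a.2
  have hch : ∀ i, Chain G (U' i) (d - 1) := by
    intro i
    refine ⟨fun a ha => ?_, fun a ha b hb e => ?_, fun a ha => ?_⟩
    · have := hU' i ⟨a, by omega⟩
      exact this ▸ u1 _ _
    · have e1 := hU' i ⟨a, by omega⟩
      have e2 := hU' i ⟨b, by omega⟩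
      exact e1 ▸ e2 ▸ (h.dsec a (by omega) b (by omega) e).mono (u3 _ _) (u3 _ _)
    · have e1 := hU' i ⟨a, by omega⟩
      have e2 := hU' i ⟨a + 1, by omega⟩
      exact e1 ▸ e2 ▸ (h.nb (x0 i) a (by omega)).mono (u2 ⟨a, by omega⟩ _)
        (u2 ⟨a + 1, by omega⟩ _)
  have hjk : ∀ j : Fin k, (j.1 + 1) * k ≤ k * k := fun j => Nat.mul_le_mul_right _ j.2
  have hlt : ∀ i j : Fin k, j.1 * k + i.1 < (j.1 + 1) * k := fun i j => by
    have := i.2
    rw [add_mul, one_mul]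
    omega
  let B : Fin k → Fin k → Set V := fun i j =>
    ⋃ a ∈ Icc (σ (j.1 * k)).1 ((σ ((j.1 + 1) * k)).1 - 1), U' i a
  have hin : ∀ i j : Fin k, (σ (j.1 * k + i.1)).1 ∈
      Icc (σ (j.1 * k)).1 ((σ ((j.1 + 1) * k)).1 - 1) := fun i j =>
    ⟨hσle _ _ (Nat.le_add_right _ _) ((hlt i j).le.trans (hjk j)),
      Nat.le_sub_one_of_lt (hσ _ _ (hlt i j) (hjk j))⟩
  have hUB : ∀ i l j : Fin k, U (σ (j.1 * k + i.1)) (x0 l) ⊆ B l j := fun i l j =>
    hU' l (σ (j.1 * k + i.1)) ▸ subset_biUnion_of_mem (u := U' l) (hin i j)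
  have hmem : ∀ (i j : Fin k) v, v ∈ B i j ∪ K (σ (j.1 * k + i.1)) i → ∃ a : Fin d,
      a.1 ∈ Icc (σ (j.1 * k)).1 ((σ ((j.1 + 1) * k)).1 - 1) ∧ v ∈ Sec a ∧
      (v ∈ U a (x0 i) ∨ (a = σ (j.1 * k + i.1) ∧ ∀ l, v ∉ U a (x0 l))) := by
    rintro i j v (hv | hv)
    · obtain ⟨a, ha, hv⟩ := mem_iUnion₂.1 hv
      have ha' : a < d := lt_of_le_of_lt (ha.2.trans (Nat.sub_le _ _)) (σ _).2
      have e1 := hU' i ⟨a, ha'⟩
      rw [e1] at hv
      exact ⟨⟨a, ha'⟩, ha, u3 _ _ hv, Or.inl hv⟩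
    · refine ⟨σ (j.1 * k + i.1), hin i j, k1 _ _ hv, Or.inr ⟨rfl, fun l => ?_⟩⟩
      have := k2 (σ (j.1 * k + i.1)) i l
      rw [hσx] at this
      exact Set.disjoint_left.1 this hv
  have hv : ∀ i i' j : Fin k, i.1 + 1 = i'.1 →
      Nb G (B i j ∪ K (σ (j.1 * k + i.1)) i) (B i' j ∪ K (σ (j.1 * k + i'.1)) i') := by
    intro i i' j e
    have := k4 (σ (j.1 * k + i.1)) i i' e
    rw [hσx] at this
    exact this.mono (union_subset_union_left _ (hUB i i j)) ((hUB i i' j).trans subset_union_left)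
  have hh : ∀ i j j' : Fin k, j.1 + 1 = j'.1 →
      Nb G (B i j ∪ K (σ (j.1 * k + i.1)) i) (B i j' ∪ K (σ (j'.1 * k + i.1)) i) := by
    intro i j j' e
    have h1 := hin i j
    have h2 := hin i j'
    have h3 := hσ _ _ (lt_of_le_of_lt (Nat.le_add_right _ _) (hlt i j)) (hjk j)
    have h4 := (σ ((j.1 + 1) * k)).2
    have h5 := (hch i).nb ((σ ((j.1 + 1) * k)).1 - 1) (by omega)
    rw [Nat.sub_add_cancel (by omega)] at h5
    refine h5.mono (subset_union_of_subset_left (subset_biUnion_of_mem (u := U' i) ?_) _)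
      (subset_union_of_subset_left (subset_biUnion_of_mem (u := U' i) ?_) _)
    · exact ⟨by omega, le_rfl⟩
    · rw [e]
      exact ⟨le_rfl, h2.1.trans h2.2⟩
  refine ⟨fun w => B w.1 w.2 ∪ K (σ (w.2.1 * k + w.1.1)) w.1, ?_, ?_, ?_⟩
  · rintro ⟨i, j⟩
    have h1 := hin i j
    have h2 : Conn G (B i j) := (hch i).conn_Icc (h1.1.trans h1.2)
      (Nat.sub_le_sub_right (σ _).2.le _)
    have h3 := k3 (σ (j.1 * k + i.1)) i
    rw [hσx] at h3
    have h4 := h2.union h3 (Or.inl ((u1 _ _).1.mono (subset_inter (hUB i i j) subset_union_left)))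
    rwa [← union_assoc, union_eq_left.2 (hUB i i j)] at h4
  · rintro ⟨i, j⟩ ⟨i', j'⟩ e
    refine Set.disjoint_left.2 fun v h1 h2 => ?_
    obtain ⟨a, a1, a2, a3⟩ := hmem i j v h1
    obtain ⟨b, b1, b2, b3⟩ := hmem i' j' v h2
    obtain rfl : a = b := by
      by_contra hab
      exact Set.disjoint_left.1 (h.dsec a a.2 b b.2 fun e' => hab (Fin.ext e')) a2 b2
    have hord : ∀ j j' : Fin k, j < j' →
        a.1 ∈ Icc (σ (j.1 * k)).1 ((σ ((j.1 + 1) * k)).1 - 1) →
        a.1 ∈ Icc (σ (j'.1 * k)).1 ((σ ((j'.1 + 1) * k)).1 - 1) → False := by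
      intro j j' hj c1 c2
      have c3 := hσle ((j.1 + 1) * k) (j'.1 * k) (Nat.mul_le_mul_right _ hj)
        (Nat.mul_le_mul_right _ j'.2.le)
      have c4 := hσ _ _ (lt_of_le_of_lt (Nat.le_add_right _ _) (hlt i j)) (hjk j)
      have := c1.2
      have := c2.1
      omega
    obtain rfl : j = j' := by
      rcases lt_trichotomy j j' with h | h | h
      · exact (hord j j' h a1 b1).elim
      · exact h
      · exact (hord j' j h b1 a1).elim
    have hi : i ≠ i' := fun e' => e (by rw [e'])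
    rcases a3 with a3 | ⟨a3, a4⟩ <;> rcases b3 with b3 | ⟨b3, b4⟩
    · exact Set.disjoint_left.1 (u4 a _ _ (hx0.ne hi)) a3 b3
    · exact b4 i a3
    · exact a4 i' b3
    · have e1 := congrArg Fin.val (a3.symm.trans b3)
      rcases lt_or_gt_of_ne hi with h | h
      · exact (hσ _ _ (Nat.add_lt_add_left h _) ((hlt i' j).le.trans (hjk j))).ne e1
      · exact (hσ _ _ (Nat.add_lt_add_left h _) ((hlt i j).le.trans (hjk j))).ne e1.symm
  · rintro ⟨i, j⟩ ⟨i', j'⟩ (⟨e, e'⟩ | ⟨e, e'⟩)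
    · obtain rfl : j = j' := e'
      rcases SimpleGraph.pathGraph_adj.1 e with e | e
      · exact hv i i' j e
      · exact (hv i' i j e).symm
    · obtain rfl : i = i' := e'
      rcases SimpleGraph.pathGraph_adj.1 e with e | e
      · exact hh i j j' e
      · exact (hh i j' j e).symm

end Pool.Agent.Work.MP_7f4e13_co.Hedge
end

-- merged part: Pool.Agent.Work.MP_7f4e13_co.Hedge.Web
section
/-! A minimal linkage crossed by many disjoint connected sets gives a grid minor. -/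

namespace Pool.Agent.Work.MP_7f4e13_co.Hedge

open Pool.Agent.Work.MP_97603a_co Set SegAux

variable {V ι : Type} {G : SimpleGraph V} {n : ℕ}

/-- edges of the paths -/
def EH (H : Fin n → Pth G) (x y : V) : Prop :=
  ∃ i, ∃ t < (H i).m, (x = (H i).p t ∧ y = (H i).p (t + 1)) ∨ (y = (H i).p t ∧ x = (H i).p (t + 1))

/-- edges inside one of the sets -/
def EV (G : SimpleGraph V) (W : ι → Set V) (x y : V) : Prop := G.Adj x y ∧ ∃ a, x ∈ W a ∧ y ∈ W a

/-- both kinds of edges, without the edge `u v` -/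
def Eo (H : Fin n → Pth G) (W : ι → Set V) (u v x y : V) : Prop :=
  (EH H x y ∨ EV G W x y) ∧ ¬ (x = u ∧ y = v) ∧ ¬ (x = v ∧ y = u)

/-- disjoint paths from `S` to `T` -/
structure Link (H : Fin n → Pth G) (S T : Set V) : Prop where
  s : ∀ i, (H i).p 0 ∈ S
  t : ∀ i, (H i).p (H i).m ∈ T
  disj : ∀ i j, i ≠ j → Disjoint (H i).set (H j).set

/-- no edge of the linkage off the sets `W` can be spared -/
def MinCut (H : Fin n → Pth G) (W : ι → Set V) (S T : Set V) : Prop :=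
  ∀ i, ∀ t < (H i).m, ¬ EV G W ((H i).p t) ((H i).p (t + 1)) →
    ¬ NoSep (Eo H W ((H i).p t) ((H i).p (t + 1))) S T n

lemma EV.symm {W : ι → Set V} {x y : V} (h : EV G W x y) : EV G W y x :=
  let ⟨h1, a, h2, h3⟩ := h; ⟨h1.symm, a, h3, h2⟩

lemma reach_idx {E : V → V → Prop} {U : Set V} {p : ℕ → V} {a b : ℕ} (hab : a ≤ b)
    (hp : ∀ i, a ≤ i → i < b → E (p i) (p (i + 1))) (hU : ∀ i, a ≤ i → i ≤ b → p i ∈ U) :
    Reach E U (p a) (p b) := by
  induction b, hab using Nat.le_induction with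
  | base => exact Reach.refl (hU a le_rfl le_rfl)
  | succ b hab ih =>
    exact (ih (fun i h1 h2 => hp i h1 (by omega)) fun i h1 h2 => hU i h1 (by omega)).tail
      (hp b hab (by omega)) (hU _ (by omega) le_rfl)

variable {H : Fin n → Pth G} {W : ι → Set V} {S T : Set V}

lemma Link.eq (hL : Link H S T) {i j : Fin n} {s t : ℕ} (hs : s ≤ (H i).m) (ht : t ≤ (H j).m)
    (e : (H i).p s = (H j).p t) : i = j := by
  by_contra h
  exact Set.disjoint_left.1 (hL.disj i j h) ((H i).p_mem_set hs) (e ▸ (H j).p_mem_set ht)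

lemma cut (hL : Link H S T) {i0 : Fin n} {t : ℕ} (ht : t < (H i0).m)
    (hE : ¬ EV G W ((H i0).p t) ((H i0).p (t + 1)))
    (h : ¬ NoSep (Eo H W ((H i0).p t) ((H i0).p (t + 1))) S T n) :
    ∃ (Z : Finset V) (L : Set V), Z.card ≤ n ∧ (∀ s ≤ (H i0).m, (H i0).p s ∈ L ↔ s ≤ t) ∧
      (∀ i s s', s' ≤ s → s ≤ (H i).m → (H i).p s ∈ L → (H i).p s' ∈ L) ∧
      ∀ a, Conn G (W a) → (∀ z ∈ Z, z ∉ W a) → ∀ x ∈ W a, x ∈ L → W a ⊆ L := by
  classical
  set E := Eo H W ((H i0).p t) ((H i0).p (t + 1)) with hEdef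
  simp only [NoSep, not_forall, not_exists, not_and] at h
  obtain ⟨Z, hZ, hsep⟩ := h
  let L : Set V := {x | ∃ s ∈ S, Reach E (↑Z)ᶜ s x}
  have hedge : ∀ i s, s < (H i).m → (i = i0 → s ≠ t) → E ((H i).p s) ((H i).p (s + 1)) := by
    intro i s hs hne
    refine ⟨Or.inl ⟨i, s, hs, Or.inl ⟨rfl, rfl⟩⟩, fun e => ?_, fun e => ?_⟩
    · obtain rfl := hL.eq hs.le ht.le e.1
      exact hne rfl ((H i).inj s hs.le t ht.le e.1)
    · obtain rfl := hL.eq hs.le ht e.1
      have h1 := (H i).inj s hs.le (t + 1) ht e.1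
      have h2 := (H i).inj (s + 1) hs t ht.le e.2
      omega
  have fwd : ∀ i b, b ≤ (H i).m → (∀ s ≤ b, (H i).p s ∉ Z) → (i = i0 → b ≤ t) →
      (H i).p b ∈ L := fun i b hb h1 h2 =>
    ⟨_, hL.s i, reach_idx (Nat.zero_le b)
      (fun s _ hs => hedge i s (by omega) fun e => by have := h2 e; omega) fun s _ hs => h1 s hs⟩
  have bwd : ∀ i a, a ≤ (H i).m → (∀ s, a ≤ s → s ≤ (H i).m → (H i).p s ∉ Z) →
      (i = i0 → t < a) → (H i).p a ∉ L := by
    rintro i a ha h1 h2 ⟨s0, hs0, hr⟩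
    exact hsep s0 hs0 _ (hL.t i) (hr.trans (reach_idx ha
      (fun s hs hs' => hedge i s hs' fun e => by have := h2 e; omega) h1))
  have hex : ∀ i, i ≠ i0 → ∃ s ≤ (H i).m, (H i).p s ∈ Z := by
    intro i hi
    by_contra hc
    push Not at hc
    exact bwd i _ le_rfl (fun s _ hs => hc s hs) (fun e => absurd e hi)
      (fwd i _ le_rfl hc fun e => absurd e hi)
  choose! z hz hz' using hex
  have himg : (Finset.univ.erase i0).image (fun i => (H i).p (z i)) = Z := by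
    refine Finset.eq_of_subset_of_card_le (fun v hv => ?_) ?_
    · obtain ⟨i, hi, rfl⟩ := Finset.mem_image.1 hv
      exact hz' i (Finset.ne_of_mem_erase hi)
    · rw [Finset.card_image_of_injOn fun i hi j hj e =>
        hL.eq (hz i (Finset.ne_of_mem_erase hi)) (hz j (Finset.ne_of_mem_erase hj)) e,
        Finset.card_erase_of_mem (Finset.mem_univ _), Finset.card_univ, Fintype.card_fin]
      omega
  have hone : ∀ i s, s ≤ (H i).m → (H i).p s ∈ Z → i ≠ i0 ∧ s = z i := by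
    intro i s hs hm
    rw [← himg] at hm
    obtain ⟨j, hj, e⟩ := Finset.mem_image.1 hm
    have hj' := Finset.ne_of_mem_erase hj
    obtain rfl := hL.eq (hz j hj') hs e
    exact ⟨hj', ((H j).inj _ (hz j hj') _ hs e).symm⟩
  have h0 : ∀ s ≤ (H i0).m, (H i0).p s ∈ L ↔ s ≤ t := by
    intro s hs
    refine ⟨fun hm => ?_, fun hst => fwd i0 s hs
      (fun s' hs' hm => (hone i0 s' (by omega) hm).1 rfl) fun _ => hst⟩
    by_contra hc
    exact bwd i0 s hs (fun s' _ hs' hm => (hone i0 s' hs' hm).1 rfl) (fun _ => by omega) hm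
  refine ⟨Z, L, hZ.le, h0, fun i s s' h1 h2 h3 => ?_, fun a ha hZa x hx ⟨s0, hs0, hr⟩ y hy => ?_⟩
  · by_cases hi : i = i0
    · subst hi
      exact (h0 s' (by omega)).2 (h1.trans ((h0 s h2).1 h3))
    · have h4 : s < z i := by
        by_contra hc
        rcases (not_lt.1 hc).eq_or_lt with e | e
        · obtain ⟨s0, -, hr⟩ := h3
          exact hr.right_mem (e ▸ hz' i hi)
        · exact bwd i s h2 (fun s'' a1 a2 hm => by have := (hone i s'' a2 hm).2; omega)
            (fun e => absurd e hi) h3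
      exact fwd i s' (by omega)
        (fun s'' a1 hm => by have := (hone i s'' (by omega) hm).2; omega) fun e => absurd e hi
  · refine ⟨s0, hs0, hr.trans ((ha.2 x hx y hy).mono' (fun u v hu hv e => ?_)
      fun u hu hu' => hZa u hu' hu)⟩
    have h1 : EV G W u v := ⟨e, a, hu, hv⟩
    exact ⟨Or.inr h1, fun e => hE (e.1 ▸ e.2 ▸ h1), fun e => hE (e.1 ▸ e.2 ▸ h1.symm)⟩

/-- the first index of the path in the set -/
noncomputable def fst (P : Pth G) (A : Set V) : ℕ := sInf {t | t ≤ P.m ∧ P.p t ∈ A}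

lemma fst_spec {P : Pth G} {A : Set V} (h : (A ∩ P.set).Nonempty) :
    fst P A ≤ P.m ∧ P.p (fst P A) ∈ A := by
  obtain ⟨_, h1, h2⟩ := h
  obtain ⟨t, ht, rfl⟩ := Pth.mem_set.1 h2
  exact Nat.sInf_mem (s := {t | t ≤ P.m ∧ P.p t ∈ A}) ⟨t, ht, h1⟩

lemma fst_le {P : Pth G} {A : Set V} {t : ℕ} (h : t ≤ P.m) (h' : P.p t ∈ A) : fst P A ≤ t :=
  Nat.sInf_le ⟨h, h'⟩

lemma ordered (d : ℕ) (hL : Link H S T) (hd : ∀ a b, a ≠ b → Disjoint (W a) (W b))
    (I : Finset ι) (hc : ∀ a ∈ I, Conn G (W a)) (i0 : Fin n)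
    (hm : ∀ a ∈ I, (W a ∩ (H i0).set).Nonempty) (hmin : MinCut H W S T)
    (hI : d * (d * n + 1) < I.card) :
    ∃ w : ℕ → ι, (∀ b < d, w b ∈ I) ∧ ∀ b b', b < b' → b' < d → ∀ i s s', s ≤ (H i).m →
      s' ≤ (H i).m → (H i).p s ∈ W (w b) → (H i).p s' ∈ W (w b') → s < s' := by
  classical
  set q := d * n + 1 with hq
  have hinj : InjOn (fun a => fst (H i0) (W a)) (I : Set ι) := by
    intro a ha b hb e
    by_contra hab
    have h1 := (fst_spec (hm a ha)).2
    have h2 := (fst_spec (hm b hb)).2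
    have e' : fst (H i0) (W a) = fst (H i0) (W b) := e
    exact Set.disjoint_left.1 (hd a b hab) h1 (e' ▸ h2)
  obtain ⟨e, he, he'⟩ := exists_sorted (toFinite (I : Set ι)) hinj (L := d * q)
    (by rwa [ncard_coe_finset])
  have hbq : ∀ b, b < d → (b + 1) * q ≤ d * q := fun b hb => Nat.mul_le_mul_right _ hb
  have hq0 : ∀ b, 0 < (b + 1) * q := fun b => Nat.mul_pos (by omega) (by omega)
  have hcut : ∀ b : Fin d, ∃ (Z : Finset V) (L : Set V), Z.card ≤ n ∧
      (∀ s ≤ (H i0).m, (H i0).p s ∈ L ↔ s ≤ fst (H i0) (W (e ((b + 1) * q))) - 1) ∧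
      (∀ i s s', s' ≤ s → s ≤ (H i).m → (H i).p s ∈ L → (H i).p s' ∈ L) ∧
      ∀ a, Conn G (W a) → (∀ z ∈ Z, z ∉ W a) → ∀ x ∈ W a, x ∈ L → W a ⊆ L := by
    intro b
    have h1 := he' 0 _ (hq0 b) (hbq b b.2)
    have h2 := fst_spec (hm _ (he _ (hbq b b.2)))
    set f := fst (H i0) (W (e ((b + 1) * q))) with hf
    have h3 : f - 1 + 1 = f := by omega
    have h4 : ¬ EV G W ((H i0).p (f - 1)) ((H i0).p (f - 1 + 1)) := by
      rintro ⟨-, a, a1, a2⟩
      rw [h3] at a2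
      obtain rfl : a = e ((b + 1) * q) := by
        by_contra hne
        exact Set.disjoint_left.1 (hd _ _ hne) a2 h2.2
      have := fst_le (show f - 1 ≤ (H i0).m by omega) a1
      omega
    exact cut hL (by omega) h4 (hmin i0 _ (by omega) h4)
  choose Z L z1 z2 z3 z4 using hcut
  have hZ : (Finset.univ.biUnion Z).card * 1 < q := by
    have := Finset.card_biUnion_le.trans
      (Finset.sum_le_card_nsmul Finset.univ (fun b => (Z b).card) n fun b _ => z1 b)
    simp only [Finset.card_univ, Fintype.card_fin, smul_eq_mul] at this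
    omega
  have hlt : ∀ b (r : Fin q), b * q + r.1 < (b + 1) * q := fun b r => by
    have := r.2
    rw [add_mul, one_mul]
    omega
  have hmiss : ∀ b : ℕ, ∃ r : Fin q, b < d →
      ∀ z ∈ Finset.univ.biUnion Z, z ∉ W (e (b * q + r.1)) := by
    intro b
    by_cases hb : b < d
    · obtain ⟨r, hr⟩ := exists_miss (c := 1) (fun r : Fin q => W (e (b * q + r.1)))
        (fun v => (ncard_le_one (toFinite _)).2 fun i hi j hj =>
          ncard_le_one_of_disj (D := fun r : Fin q => W (e (b * q + r.1))) (fun i j hij =>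
            hd _ _ fun e' => by
              rcases lt_or_gt_of_ne hij with h | h
              · have := he' _ _ (Nat.add_lt_add_left h (b * q)) ((hlt b j).le.trans (hbq b hb))
                rw [e'] at this
                exact lt_irrefl _ this
              · have := he' _ _ (Nat.add_lt_add_left h (b * q)) ((hlt b i).le.trans (hbq b hb))
                rw [e'] at this
                exact lt_irrefl _ this) v hi hj) _ hZ
      exact ⟨r, fun _ => hr⟩
    · exact ⟨⟨0, by omega⟩, fun h => absurd h hb⟩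
  choose r hr using hmiss
  have hwI : ∀ b < d, e (b * q + (r b).1) ∈ I := fun b hb =>
    he _ ((hlt b _).le.trans (hbq b hb))
  refine ⟨fun b => e (b * q + (r b).1), hwI, fun b b' hb hb' i s s' hs hs' h1 h2 => ?_⟩
  have hbd : b < d := hb.trans hb'
  have hav : ∀ c < d, ∀ z ∈ Z ⟨b, hbd⟩, z ∉ W (e (c * q + (r c).1)) := fun c hc z hz =>
    hr c hc z (Finset.mem_biUnion.2 ⟨_, Finset.mem_univ _, hz⟩)
  have f1 := fst_spec (hm _ (hwI b hbd))
  have f2 := fst_spec (hm _ (hwI b' hb'))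
  have h3 : W (e (b * q + (r b).1)) ⊆ L ⟨b, hbd⟩ :=
    z4 _ _ (hc _ (hwI b hbd)) (hav b hbd) _ f1.2 ((z2 _ _ f1.1).2
      (Nat.le_sub_one_of_lt (he' _ _ (hlt b _) (hbq b hbd))))
  by_contra hc'
  have h4 := z4 _ _ (hc _ (hwI b' hb')) (hav b' hb') _ h2
    (z3 ⟨b, hbd⟩ i s s' (not_lt.1 hc') hs (h3 h1))
  have h5 := (z2 ⟨b, hbd⟩ _ f2.1).1 (h4 f2.2)
  have h6 := he' 0 _ (hq0 b) (hbq b hbd)
  have h7 : (b + 1) * q ≤ b' * q + (r b').1 :=
    (Nat.mul_le_mul_right _ hb).trans (Nat.le_add_right _ _)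
  rcases h7.eq_or_lt with h8 | h8
  · rw [← h8] at h5
    simp only at h5 h6
    omega
  · have := he' _ _ h8 ((hlt b' _).le.trans (hbq b' hb'))
    simp only at h5 h6 this
    omega

theorem grid_of_web (k : ℕ) : ∃ p : ℕ, ∀ n : ℕ, ∃ q : ℕ, ∀ (V ι : Type) [Finite V]
    (G : SimpleGraph V) (H : Fin n → Pth G) (W : ι → Set V) (S T : Set V) (I : Finset ι)
    (e : Fin p → Fin n), Function.Injective e → q < I.card → Link H S T →
    (∀ a b, a ≠ b → Disjoint (W a) (W b)) → (∀ a ∈ I, Conn G (W a)) →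
    (∀ a ∈ I, ∀ i, (W a ∩ (H (e i)).set).Nonempty) → MinCut H W S T →
    Minor G (SimpleGraph.pathGraph k □ SimpleGraph.pathGraph k) := by
  obtain ⟨p, d, hpd⟩ := grid_of_cyl k
  refine ⟨p + 1, fun n => ⟨(d + 1) * ((d + 1) * n + 1),
    fun V ι _ G H W S T I e he hI hL hd hc hm hmin => ?_⟩⟩
  obtain ⟨w, hw, hw'⟩ := ordered (d + 1) hL hd I hc (e 0) (fun a ha => hm a ha 0) hmin hI
  let σ : Fin (p + 1) → ℕ → ℕ := fun i b => fst (H (e i)) (W (w b))
  have hσ : ∀ i, ∀ b < d + 1, σ i b ≤ (H (e i)).m ∧ (H (e i)).p (σ i b) ∈ W (w b) :=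
    fun i b hb => fst_spec (hm _ (hw b hb) i)
  have hlt : ∀ i b b', b < b' → b' < d + 1 → σ i b < σ i b' := fun i b b' h1 h2 =>
    hw' b b' h1 h2 _ _ _ (hσ i b (by omega)).1 (hσ i b' h2).1 (hσ i b (by omega)).2
      (hσ i b' h2).2
  let R : Fin (p + 1) → ℕ → Set V := fun i b => (H (e i)).seg (σ i b) (σ i (b + 1) - 1)
  have hle : ∀ i, ∀ b < d, σ i b ≤ σ i (b + 1) - 1 ∧ σ i (b + 1) - 1 ≤ (H (e i)).m := by
    intro i b hb
    have h1 := hlt i b (b + 1) (by omega) (by omega)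
    have h2 := (hσ i (b + 1) (by omega)).1
    omega
  have hRs : ∀ i, ∀ b < d, R i b ⊆ (H (e i)).set := fun i b hb =>
    (H (e i)).seg_subset _ (hle i b hb).2
  have hRc : ∀ i, ∀ b < d, Conn G (R i b) := fun i b hb =>
    (H (e i)).conn_seg (hle i b hb).1 (hle i b hb).2
  have hRR : ∀ i b b', b < b' → b' < d → Disjoint (R i b) (R i b') := by
    intro i b b' h1 h2
    refine (H (e i)).disjoint_seg ?_ (hle i b' h2).2
    have h3 := hlt i b (b + 1) (by omega) (by omega)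
    rcases (show b + 1 ≤ b' from h1).eq_or_lt with h4 | h4
    · rw [← h4]; omega
    · have := hlt i (b + 1) b' h4 (by omega)
      omega
  have hRR' : ∀ i j, ∀ b < d, ∀ b' < d, b ≠ b' → Disjoint (R i b) (R j b') := by
    intro i j b hb b' hb' hne
    by_cases hij : i = j
    · subst hij
      rcases lt_or_gt_of_ne hne with h | h
      · exact hRR i b b' h hb'
      · exact (hRR i b' b h hb).symm
    · exact (hL.disj _ _ (he.ne hij)).mono (hRs i b hb) (hRs j b' hb')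
  have hWR : ∀ i, ∀ b < d, ∀ b' < d, b ≠ b' → Disjoint (W (w b)) (R i b') := by
    intro i b hb b' hb' hne
    refine Set.disjoint_left.2 fun v h1 h2 => ?_
    obtain ⟨s, hs, rfl⟩ := Pth.mem_set.1 (hRs i b' hb' h2)
    have h3 : (H (e i)).p s ∈ R i b := (H (e i)).p_mem_seg (fst_le hs h1)
      (Nat.le_sub_one_of_lt (hw' b (b + 1) (by omega) (by omega) _ _ _ hs
        (hσ i (b + 1) (by omega)).1 h1 (hσ i (b + 1) (by omega)).2))
    exact Set.disjoint_left.1 (hRR' i i b hb b' hb' hne) h3 h2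
  have hWW : ∀ b < d, ∀ b' < d, b ≠ b' → Disjoint (W (w b)) (W (w b')) := by
    intro b hb b' hb' hne
    refine hd _ _ fun e' => ?_
    have h1 : σ 0 b = σ 0 b' := by simp only [σ, e']
    rcases lt_or_gt_of_ne hne with h | h
    · exact (hlt 0 b b' h (by omega)).ne h1
    · exact (hlt 0 b' b h (by omega)).ne h1.symm
  refine hpd V G R (fun b => W (w b) ∪ ⋃ i, R i b) ⟨hRc, fun i b _ =>
    subset_union_of_subset_right (subset_iUnion (fun i => R i b) i) _, fun b hb => ?_,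
    fun b hb b' hb' hne => ?_, fun b hb i j hij =>
      (hL.disj _ _ (he.ne hij)).mono (hRs i b hb) (hRs j b hb), fun i b hb => ?_⟩
  · exact (hc _ (hw b (by omega))).union_iUnion (fun i => hRc i b hb) fun i =>
      Or.inl ⟨_, (hσ i b (by omega)).2, (H (e i)).p_mem_seg le_rfl (hle i b hb).1⟩
  · simp only [disjoint_union_left, disjoint_union_right, disjoint_iUnion_left,
      disjoint_iUnion_right]
    exact ⟨⟨hWW b hb b' hb' hne, fun i => (hWR i b' hb' b hb hne.symm).symm⟩,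
      fun j => ⟨hWR j b hb b' hb' hne, fun i => hRR' i j b hb b' hb' hne⟩⟩
  · have h1 := hle i b (by omega)
    have h2 := hle i (b + 1) hb
    have h3 := hlt i b (b + 1) (by omega) (by omega)
    have h4 := (H (e i)).adj (σ i (b + 1) - 1) (by omega)
    rw [Nat.sub_add_cancel (by omega)] at h4
    exact ⟨_, (H (e i)).p_mem_seg h1.1 le_rfl, _, (H (e i)).p_mem_seg le_rfl h2.1, h4⟩

end Pool.Agent.Work.MP_7f4e13_co.Hedge
end

-- merged part: Pool.Agent.Work.MP_7f4e13_co.Hedge.Dem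
section
/-! Highly linked demands are met by disjoint connected sets, or there is a grid minor. -/

namespace Pool.Agent.Work.MP_7f4e13_co.Hedge

open Pool.Agent.Work.MP_97603a_co Set SegAux

variable {V ι : Type} {G : SimpleGraph V} {n : ℕ}

/-- `n` disjoint paths from `S` to `T` inside `C` -/
def Lnk (G : SimpleGraph V) (C S T : Set V) (n : ℕ) : Prop :=
  ∃ H : Fin n → Pth G, Link H S T ∧ ∀ i, (H i).set ⊆ C

lemma Lnk.comp {C C' S T : Set V} {m : ℕ} {H : Fin n → Pth G} (h : Link H S T)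
    (f : Fin m → Fin n) (hf : Function.Injective f) (hC : ∀ i, (H (f i)).set ⊆ C') :
    Lnk G C' S T m :=
  ⟨fun i => H (f i), ⟨fun i => h.s _, fun i => h.t _, fun _ _ e => h.disj _ _ (hf.ne e)⟩, hC⟩

lemma Lnk.mono {C S T : Set V} {m : ℕ} (h : Lnk G C S T n) (hm : m ≤ n) : Lnk G C S T m :=
  let ⟨_, h1, h2⟩ := h
  Lnk.comp (C := C) h1 (Fin.castLE hm) (Fin.castLE_injective _) fun _ => h2 _

lemma paths_of_linked {E : V → V → Prop} {C S T : Set V} (hE : ∀ x y, E x y → G.Adj x y ∧ y ∈ C)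
    (hS : S ⊆ C) (h : Linked E S T n) : ∃ H : Fin n → Pth G, Link H S T ∧ (∀ i, (H i).set ⊆ C) ∧
      ∀ i, ∀ t < (H i).m, E ((H i).p t) ((H i).p (t + 1)) := by
  obtain ⟨s, t, P, h1, h2⟩ := h
  choose m p p1 p2 p3 p4 p5 using fun i => (h1 i).2.2.exists_chain
  have q1 : ∀ i, p i 0 ∈ S := fun i => (p1 i).symm ▸ (h1 i).1
  have q2 : ∀ i, p i (m i) ∈ T := fun i => (p2 i).symm ▸ (h1 i).2.1
  refine ⟨fun i => ⟨p i, m i, fun a ha => (hE _ _ (p3 i a ha)).1, p5 i⟩,
    ⟨fun i => ?_, fun i => ?_, fun i j e => (h2 i j e).mono ?_ ?_⟩, fun i v hv => ?_, p3⟩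
  · exact q1 i
  · exact q2 i
  · intro v hv
    obtain ⟨a, ha, rfl⟩ := Pth.mem_set.1 hv
    exact p4 i a ha
  · intro v hv
    obtain ⟨a, ha, rfl⟩ := Pth.mem_set.1 hv
    exact p4 j a ha
  · obtain ⟨a, ha, rfl⟩ := Pth.mem_set.1 hv
    rcases a with _ | a
    · exact hS (q1 i)
    · exact (hE _ _ (p3 i a ha)).2

lemma exists_minCut [Finite V] {C S T : Set V} (W : ι → Set V) (hW : ∀ a, W a ⊆ C)
    (h : Lnk G C S T n) : ∃ H : Fin n → Pth G, Link H (S ∩ C) T ∧ (∀ i, (H i).set ⊆ C) ∧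
      MinCut H W (S ∩ C) T := by
  classical
  let cost : (Fin n → Pth G) → Set (V × V) := fun H => {q | EH H q.1 q.2 ∧ ¬ EV G W q.1 q.2}
  have hex : ∃ c, ∃ H : Fin n → Pth G, (Link H (S ∩ C) T ∧ ∀ i, (H i).set ⊆ C) ∧
      (cost H).ncard = c := by
    obtain ⟨H, h1, h2⟩ := h
    exact ⟨_, H, ⟨⟨fun i => ⟨h1.s i, h2 i ((H i).p_mem_set (Nat.zero_le _))⟩, h1.t, h1.disj⟩, h2⟩,
      rfl⟩
  obtain ⟨H, ⟨h1, h2⟩, h3⟩ := Nat.find_spec hex
  refine ⟨H, h1, h2, fun i t ht hE hN => ?_⟩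
  obtain ⟨H', a1, a2, a3⟩ := paths_of_linked (G := G) (C := C) (by
    rintro x y ⟨⟨j, s, hs, ⟨rfl, rfl⟩ | ⟨rfl, rfl⟩⟩ | ⟨e, a, -, ha⟩, -⟩
    · exact ⟨(H j).adj s hs, h2 j ((H j).p_mem_set hs)⟩
    · exact ⟨((H j).adj s hs).symm, h2 j ((H j).p_mem_set hs.le)⟩
    · exact ⟨e, hW a ha⟩) inter_subset_right (menger n _ _ _ hN)
  have hsym : ∀ x y, EH H x y → EH H y x := fun x y ⟨j, s, hs, e⟩ => ⟨j, s, hs, e.symm⟩
  have hEo : ∀ x y, EH H' x y → Eo H W ((H i).p t) ((H i).p (t + 1)) x y := by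
    rintro x y ⟨j, s, hs, ⟨rfl, rfl⟩ | ⟨rfl, rfl⟩⟩
    · exact a3 j s hs
    · obtain ⟨b1, b2, b3⟩ := a3 j s hs
      exact ⟨b1.imp (hsym _ _) EV.symm, fun e => b3 e.symm, fun e => b2 e.symm⟩
  have hlt : cost H' ⊂ cost H := by
    refine ⟨fun q hq => ⟨(hEo _ _ hq.1).1.resolve_right hq.2, hq.2⟩, fun hs => ?_⟩
    have := hs (show ((H i).p t, (H i).p (t + 1)) ∈ cost H from
      ⟨⟨i, t, ht, Or.inl ⟨rfl, rfl⟩⟩, hE⟩)
    exact (hEo _ _ this.1).2.1 ⟨rfl, rfl⟩
  exact Nat.find_min hex (h3 ▸ ncard_lt_ncard hlt (toFinite _)) ⟨H', ⟨a1, a2⟩, rfl⟩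

theorem demands (k n : ℕ) : ∃ K : ℕ, ∀ (V ι : Type) [Finite V] (G : SimpleGraph V) (C : Set V)
    (S T : ι → Set V) (I : Finset ι), I.card ≤ n → (∀ e ∈ I, Lnk G C (S e) (T e) K) →
    Minor G (SimpleGraph.pathGraph k □ SimpleGraph.pathGraph k) ∨
    ∃ Y : ι → Set V, (∀ e ∈ I, Conn G (Y e) ∧ Y e ⊆ C ∧ (Y e ∩ S e).Nonempty ∧
      (Y e ∩ T e).Nonempty) ∧ ∀ e ∈ I, ∀ e' ∈ I, e ≠ e' → Disjoint (Y e) (Y e') := by
  classical
  induction n with
  | zero =>
    refine ⟨0, fun V ι _ G C S T I hI _ => Or.inr ⟨fun _ => ∅, fun e he => ?_, fun e he => ?_⟩⟩ <;>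
      simp [Finset.card_eq_zero.1 (Nat.le_zero.1 hI)] at he
  | succ n ih =>
    obtain ⟨K0, ih⟩ := ih
    obtain ⟨p, hp⟩ := grid_of_web k
    obtain ⟨q, hq⟩ := hp (K0 + p)
    refine ⟨n * 2 ^ (K0 + p) * q + 1 + (K0 + p), fun V ι _ G C S T I hI hL => ?_⟩
    rcases I.eq_empty_or_nonempty with rfl | ⟨e0, he0⟩
    · exact Or.inr ⟨fun _ => ∅, by simp, by simp⟩
    set N := n * 2 ^ (K0 + p) * q + 1 with hN
    obtain ⟨P, hP, hPC⟩ := (hL e0 he0).mono (Nat.le_add_right N _)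
    have hI' : (I.erase e0).card ≤ n := by rw [Finset.card_erase_of_mem he0]; omega
    choose H h1 h2 h3 using fun e : {e // e ∈ I.erase e0} =>
      exists_minCut (fun a => (P a).set) hPC
        ((hL e (Finset.mem_of_mem_erase e.2)).mono (Nat.le_add_left (K0 + p) N))
    let M : Fin N → {e // e ∈ I.erase e0} → Finset (Fin (K0 + p)) := fun a e =>
      Finset.univ.filter fun i => ((P a).set ∩ (H e i).set).Nonempty
    by_cases hc : ∃ a, ∀ e, (M a e).card < p + 1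
    · obtain ⟨a, ha⟩ := hc
      rcases ih V ι G (C \ (P a).set) S T (I.erase e0) hI' (fun e he => by
        obtain ⟨f, hf, hf'⟩ := exists_inj_fin (A := (M a ⟨e, he⟩)ᶜ) (s := K0) (by
          have := ha ⟨e, he⟩
          rw [Finset.card_compl, Fintype.card_fin]
          omega)
        have hl : Link (H ⟨e, he⟩) (S e) (T e) :=
          ⟨fun i => ((h1 ⟨e, he⟩).s i).1, (h1 ⟨e, he⟩).t, (h1 ⟨e, he⟩).disj⟩
        refine Lnk.comp (C := C) hl f hf fun i v hv => ⟨h2 _ _ hv, fun hv' => ?_⟩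
        exact Finset.mem_compl.1 (hf' i) (Finset.mem_filter.2 ⟨Finset.mem_univ _, v, hv', hv⟩))
        with h | ⟨Y, y1, y2⟩
      · exact Or.inl h
      refine Or.inr ⟨fun e => if e = e0 then (P a).set else Y e, fun e he => ?_,
        fun e he e' he' hne => ?_⟩
      · beta_reduce
        split_ifs with h
        · subst h
          exact ⟨(P a).conn_set, hPC a, ⟨_, (P a).p_mem_set (Nat.zero_le _), hP.s a⟩,
            ⟨_, (P a).p_mem_set le_rfl, hP.t a⟩⟩
        · obtain ⟨b1, b2, b3⟩ := y1 e (Finset.mem_erase.2 ⟨h, he⟩)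
          exact ⟨b1, b2.trans diff_subset, b3⟩
      · beta_reduce
        split_ifs with h h' h'
        · exact absurd (h.trans h'.symm) hne
        · exact (subset_diff.1 (y1 e' (Finset.mem_erase.2 ⟨h', he'⟩)).2.1).2.symm
        · exact (subset_diff.1 (y1 e (Finset.mem_erase.2 ⟨h, he⟩)).2.1).2
        · exact y2 e (Finset.mem_erase.2 ⟨h, he⟩) e' (Finset.mem_erase.2 ⟨h', he'⟩) hne
    · left
      push Not at hc
      choose g hg using hc
      obtain ⟨⟨e, A⟩, -, hs⟩ := Finset.exists_lt_card_fiber_of_mul_lt_card_of_maps_to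
        (s := Finset.univ) (t := Finset.univ) (f := fun a => (g a, M a (g a))) (n := q)
        (fun _ _ => Finset.mem_univ _) (by
          simp only [Finset.card_univ, Fintype.card_prod, Fintype.card_coe, Fintype.card_finset,
            Fintype.card_fin]
          have := Nat.mul_le_mul_right q (Nat.mul_le_mul_right (2 ^ (K0 + p)) hI')
          omega)
      have hmem : ∀ a ∈ Finset.univ.filter (fun a => (g a, M a (g a)) = (e, A)),
          g a = e ∧ M a e = A := fun a ha => by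
        have := Prod.ext_iff.1 (Finset.mem_filter.1 ha).2
        have b1 : g a = e := this.1
        have b2 : M a (g a) = A := this.2
        exact ⟨b1, b1 ▸ b2⟩
      obtain ⟨a0, ha0⟩ := Finset.card_pos.1 (lt_of_le_of_lt (Nat.zero_le _) hs)
      obtain ⟨f, hf, hf'⟩ := exists_inj_fin (A := A) (s := p) (by
        have := hg a0
        rw [(hmem a0 ha0).1, (hmem a0 ha0).2] at this
        omega)
      refine hq V (Fin N) G (H e) (fun a => (P a).set) _ _ _ f hf hs (h1 e) hP.disj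
        (fun a _ => (P a).conn_set) (fun a ha i => ?_) (h3 e)
      have := hf' i
      rw [← (hmem a ha).2] at this
      exact (Finset.mem_filter.1 this).2

end Pool.Agent.Work.MP_7f4e13_co.Hedge
end

-- merged part: Pool.Agent.Work.MP_7f4e13_co.Hedge.Ext
section
/-! A large bramble gives disjoint connected sets that are highly linked outside themselves. -/

namespace Pool.Agent.Work.MP_7f4e13_co.Hedge

open Pool.Agent.Work.MP_97603a_co Set

variable {V : Type} {G : SimpleGraph V}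

/-- the component of `G - Z` holding the members of the bramble that miss `Z` -/
def beta (G : SimpleGraph V) (𝓑 : Set (Set V)) (Z : Set V) : Set V :=
  {v | ∃ B ∈ 𝓑, Disjoint B Z ∧ ∃ b ∈ B, Reach G.Adj Zᶜ b v}

section
variable {𝓑 : Set (Set V)} {Z Z' : Set V} {t : ℕ}

lemma beta_not {v : V} (h : v ∈ beta G 𝓑 Z) : v ∉ Z :=
  let ⟨_, _, _, _, _, h⟩ := h; h.right_mem

lemma beta_adj {v y : V} (h : v ∈ beta G 𝓑 Z) (e : G.Adj v y) (hy : y ∉ Z) : y ∈ beta G 𝓑 Z :=
  let ⟨B, h1, h2, b, h3, h4⟩ := h; ⟨B, h1, h2, b, h3, h4.tail e hy⟩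

lemma beta_anti (h : Z ⊆ Z') : beta G 𝓑 Z' ⊆ beta G 𝓑 Z :=
  fun _ ⟨B, h1, h2, b, h3, h4⟩ =>
    ⟨B, h1, h2.mono_right h, b, h3, h4.mono (compl_subset_compl.2 h)⟩

lemma beta_reach {v y : V} (h : v ∈ beta G 𝓑 Z) (hr : Reach G.Adj Zᶜ v y) :
    Reach G.Adj (beta G 𝓑 Z) v y :=
  hr.restrict fun _ hz _ =>
    let ⟨B, h1, h2, b, h3, h4⟩ := h; ⟨B, h1, h2, b, h3, h4.trans hz⟩

lemma beta_conn [Finite V] (h : IsBr G univ t 𝓑) (hZ : Z.ncard < t) : Conn G (beta G 𝓑 Z) := by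
  obtain ⟨B, hB, hB'⟩ := h.ord (toFinite Z).toFinset (by rwa [← ncard_eq_toFinset_card])
  have hd : Disjoint B Z := Set.disjoint_right.2 fun z hz => hB' z (by simpa using hz)
  obtain ⟨b, hb⟩ := (h.conn B hB).1
  have hb' : b ∈ beta G 𝓑 Z := ⟨B, hB, hd, b, hb, Reach.refl (Set.disjoint_left.1 hd hb)⟩
  refine conn_of_root hb' ?_
  rintro v ⟨B', h1, h2, b', h3, h4⟩
  refine beta_reach hb' (Reach.trans ?_ h4)
  exact (((h.conn B hB).union (h.conn B' h1) (h.touch B hB B' h1)).2 b (Or.inl hb) b'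
    (Or.inr h3)).mono (union_subset hd.subset_compl_right h2.subset_compl_right)

/-- a closed set containing a smaller component contains the component -/
lemma beta_subset [Finite V] (h : IsBr G univ t 𝓑) (hZ : Z'.ncard < t) (hs : Z ⊆ Z') {W : Set V}
    (hW : beta G 𝓑 Z' ⊆ W) (hcl : ∀ w ∈ W, ∀ y, y ∉ Z → G.Adj w y → y ∈ W) :
    beta G 𝓑 Z ⊆ W := by
  obtain ⟨a, ha⟩ := (beta_conn h hZ).1
  exact (beta_conn h ((ncard_le_ncard hs).trans_lt hZ)).subset_of_closed (beta_anti hs ha) (hW ha)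
    fun x hx y hy e => hcl x hx y (beta_not hy) e

end

variable {m k : ℕ} {𝓑 : Set (Set V)}

/-- the union of all sets but one -/
def rest (X : Fin m → Set V) (i : Fin m) : Set V := {v | ∃ j, j ≠ i ∧ v ∈ X j}

lemma rest_subset (X : Fin m → Set V) (i : Fin m) : rest X i ⊆ ⋃ j, X j :=
  fun _ ⟨j, _, h⟩ => mem_iUnion.2 ⟨j, h⟩

lemma mem_of_not_rest {X : Fin m → Set V} {i : Fin m} {v : V} (h : v ∈ ⋃ j, X j)
    (h' : v ∉ rest X i) : v ∈ X i := by
  obtain ⟨j, hj⟩ := mem_iUnion.1 h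
  by_contra hc
  exact h' ⟨j, fun e => hc (e ▸ hj), hj⟩

lemma iUnion_update (X : Fin m → Set V) (i : Fin m) (A : Set V) :
    ⋃ j, Function.update X i A j = rest X i ∪ A := by
  ext v
  simp only [mem_iUnion, mem_union, rest, mem_setOf_eq]
  constructor
  · rintro ⟨j, hj⟩
    by_cases e : j = i
    · subst e
      exact Or.inr (by simpa using hj)
    · exact Or.inl ⟨j, e, by simpa [e] using hj⟩
  · rintro (⟨j, e, hj⟩ | h)
    · exact ⟨j, by simpa [e] using hj⟩
    · exact ⟨i, by simpa using h⟩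

/-- a state of the search -/
structure St (G : SimpleGraph V) (𝓑 : Set (Set V)) (k : ℕ) (T X : Fin m → Set V) : Prop where
  disj : ∀ i j, i ≠ j → Disjoint (T i) (T j)
  pre : ∀ i, T i = ∅ ∨ Conn G (T i)
  sub : ∀ i, X i ⊆ T i
  card : ∀ i, (X i).ncard ≤ k
  out : ∀ i, Disjoint (T i) (beta G 𝓑 (⋃ j, X j))

variable {T X : Fin m → Set V}

lemma St.ncard_le [Finite V] (h : St G 𝓑 k T X) : (⋃ j, X j).ncard ≤ m * k := by
  have := (Finset.set_ncard_biUnion_le Finset.univ X).trans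
    (Finset.sum_le_card_nsmul _ _ k fun i _ => h.card i)
  simpa using this

lemma St.update (h : St G 𝓑 k T X) (i : Fin m) {T' X' : Set V}
    (h1 : ∀ j, j ≠ i → Disjoint T' (T j)) (h2 : T' = ∅ ∨ Conn G T') (h3 : X' ⊆ T')
    (h4 : X'.ncard ≤ k) (h5 : beta G 𝓑 (rest X i ∪ X') ⊆ beta G 𝓑 (⋃ j, X j))
    (h6 : Disjoint T' (beta G 𝓑 (rest X i ∪ X'))) :
    St G 𝓑 k (Function.update T i T') (Function.update X i X') := by
  refine ⟨fun a b e => ?_, fun a => ?_, fun a => ?_, fun a => ?_, fun a => ?_⟩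
  · by_cases ha : a = i
    · subst ha
      rw [Function.update_self, Function.update_of_ne e.symm]
      exact h1 b e.symm
    · by_cases hb : b = i
      · subst hb
        rw [Function.update_self, Function.update_of_ne ha]
        exact (h1 a ha).symm
      · rw [Function.update_of_ne ha, Function.update_of_ne hb]
        exact h.disj a b e
  · by_cases ha : a = i
    · subst ha; rwa [Function.update_self]
    · rw [Function.update_of_ne ha]; exact h.pre a
  · by_cases ha : a = i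
    · subst ha; rwa [Function.update_self, Function.update_self]
    · rw [Function.update_of_ne ha, Function.update_of_ne ha]; exact h.sub a
  · by_cases ha : a = i
    · subst ha; rwa [Function.update_self]
    · rw [Function.update_of_ne ha]; exact h.card a
  · rw [iUnion_update]
    by_cases ha : a = i
    · subst ha; rwa [Function.update_self]
    · rw [Function.update_of_ne ha]; exact (h.out a).mono_right h5

/-- a state with the smallest component -/
def Min (G : SimpleGraph V) (𝓑 : Set (Set V)) (k : ℕ) (T X : Fin m → Set V) : Prop :=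
  St G 𝓑 k T X ∧ ∀ T' X' : Fin m → Set V, St G 𝓑 k T' X' →
    (beta G 𝓑 (⋃ j, X j)).ncard ≤ (beta G 𝓑 (⋃ j, X' j)).ncard

lemma exists_min (G : SimpleGraph V) (𝓑 : Set (Set V)) (m k : ℕ) :
    ∃ T X : Fin m → Set V, Min G 𝓑 k T X := by
  classical
  have hex : ∃ c, ∃ T X : Fin m → Set V, St G 𝓑 k T X ∧ (beta G 𝓑 (⋃ j, X j)).ncard = c :=
    ⟨_, fun _ => ∅, fun _ => ∅, ⟨fun _ _ _ => empty_disjoint _, fun _ => Or.inl rfl,
      fun _ => subset_rfl, fun _ => by simp, fun _ => empty_disjoint _⟩, rfl⟩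
  obtain ⟨T, X, h1, h2⟩ := Nat.find_spec hex
  exact ⟨T, X, h1, fun T' X' h => h2 ▸ Nat.find_min' hex ⟨T', X', h, rfl⟩⟩

lemma Min.of_subset [Finite V] (h : Min G 𝓑 k T X) {T' X' : Fin m → Set V}
    (h' : St G 𝓑 k T' X') (hs : beta G 𝓑 (⋃ j, X' j) ⊆ beta G 𝓑 (⋃ j, X j)) :
    Min G 𝓑 k T' X' :=
  ⟨h', fun A B hAB => (ncard_le_ncard hs).trans (h.2 A B hAB)⟩

lemma Min.no_grow [Finite V] (h : Min G 𝓑 k T X) {i : Fin m} (hi : (X i).ncard < k) {v : V}
    (hv : v ∈ beta G 𝓑 (⋃ j, X j)) (hn : T i = ∅ ∨ ∃ u ∈ T i, G.Adj u v) : False := by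
  have hs : (⋃ j, X j) ⊆ rest X i ∪ (X i ∪ {v}) := fun x hx => by
    by_cases e : x ∈ rest X i
    · exact Or.inl e
    · exact Or.inr (Or.inl (mem_of_not_rest hx e))
  have hv' : v ∉ beta G 𝓑 (rest X i ∪ (X i ∪ {v})) := fun hc =>
    beta_not hc (Or.inr (Or.inr rfl))
  have h1 := h.1.update i (T' := T i ∪ {v}) (X' := X i ∪ {v})
    (fun j hj => disjoint_union_left.2 ⟨h.1.disj _ _ hj.symm,
      disjoint_singleton_left.2 fun hc => Set.disjoint_left.1 (h.1.out j) hc hv⟩)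
    (Or.inr (by
      rcases hn with e | ⟨u, hu, e⟩
      · rw [e, empty_union]; exact conn_singleton v
      · exact ((h.1.pre i).resolve_left (Nonempty.ne_empty ⟨u, hu⟩)).union (conn_singleton v)
          (Or.inr ⟨u, hu, v, rfl, e⟩)))
    (union_subset_union_left _ (h.1.sub i))
    ((ncard_union_le _ _).trans (by rw [ncard_singleton]; omega)) (beta_anti hs)
    (disjoint_union_left.2 ⟨(h.1.out i).mono_right (beta_anti hs), disjoint_singleton_left.2 hv'⟩)
  have h2 := h.2 _ _ h1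
  rw [iUnion_update] at h2
  exact absurd (ncard_lt_ncard ⟨beta_anti hs, fun hc => hv' (hc hv)⟩ (toFinite _)) (not_lt.2 h2)

lemma Min.full [Finite V] (hB : IsBr G univ (m * k + k) 𝓑) (h : Min G 𝓑 k T X) (i : Fin m) :
    k ≤ (X i).ncard := by
  by_contra hi
  have hi := not_le.1 hi
  have hc := h.1.ncard_le
  have hs : beta G 𝓑 (rest X i ∪ ∅) ⊆ beta G 𝓑 (⋃ j, X j) := by
    rw [union_empty]
    refine beta_subset hB (by omega) (rest_subset X i) subset_rfl fun w hw y hy e => ?_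
    refine beta_adj hw e fun hy' => ?_
    exact h.no_grow hi hw (Or.inr ⟨y, h.1.sub i (mem_of_not_rest hy' hy), e.symm⟩)
  have h1 := h.1.update i (T' := ∅) (X' := ∅) (fun _ _ => empty_disjoint _) (Or.inl rfl)
    subset_rfl (by simp) hs (empty_disjoint _)
  have h2 := h.of_subset h1 (by rwa [iUnion_update])
  obtain ⟨v, hv⟩ := (beta_conn hB (Z := ⋃ j, Function.update X i ∅ j)
    (h1.ncard_le.trans_lt (by omega))).1
  exact h2.no_grow (i := i) (by simp; omega) hv (Or.inl (by simp))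

lemma Min.side [Finite V] (hB : IsBr G univ (m * k + k) 𝓑) (h : Min G 𝓑 k T X) (i : Fin m)
    {Z U : Set V} (hZ : Z.ncard < k) (hU : beta G 𝓑 (⋃ j, X j) ∪ X i ⊆ U)
    (hR : ∀ x ∈ X i, ∀ y, Reach G.Adj (U \ Z) x y → y ∈ beta G 𝓑 (⋃ j, X j) ∪ X i) :
    ∃ x ∈ X i, ∃ y ∈ beta G 𝓑 ((⋃ j, X j) ∪ Z), Reach G.Adj (U \ Z) x y := by
  by_contra hc
  push Not at hc
  set C := beta G 𝓑 (⋃ j, X j) with hC
  let R : Set V := {y | ∃ x ∈ X i, Reach G.Adj (U \ Z) x y}
  let Z' : Set V := {z | z ∈ Z ∧ z ∈ C ∪ X i ∧ (z ∈ T i ∨ ∃ y ∈ R, G.Adj y z)}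
  have hRC : R ⊆ C ∪ X i := fun y ⟨x, hx, hr⟩ => hR x hx y hr
  have hRadj : ∀ y ∈ R, ∀ w, G.Adj y w → w ∈ C → w ∉ R → w ∈ Z' := by
    intro y hy w e hw hw'
    refine ⟨?_, Or.inl hw, Or.inr ⟨y, hy, e⟩⟩
    by_contra hz
    obtain ⟨x, hx, hr⟩ := hy
    exact hw' ⟨x, hx, hr.tail e ⟨hU (Or.inl hw), hz⟩⟩
  have hn := h.1.ncard_le
  have hsm : ((⋃ j, X j) ∪ Z).ncard < m * k + k := (ncard_union_le _ _).trans_lt (by omega)
  have hW : beta G 𝓑 (rest X i ∪ Z') ⊆ C \ (R ∪ Z') := by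
    refine beta_subset hB hsm
      (union_subset_union (rest_subset X i) fun z hz => hz.1) (fun v hv => ?_) ?_
    · refine ⟨beta_anti subset_union_left hv, ?_⟩
      rintro (⟨x, hx, hr⟩ | hz)
      · exact hc x hx v hv hr
      · exact beta_not hv (Or.inr hz.1)
    · intro w hw y hy e
      have hyR : y ∉ R := fun hyR =>
        hw.2 (Or.inr (hRadj y hyR w e.symm hw.1 fun hwR => hw.2 (Or.inl hwR)))
      have hyX : y ∉ ⋃ j, X j := by
        intro hyX
        have h1 := mem_of_not_rest hyX fun hr => hy (Or.inl hr)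
        by_cases hz : y ∈ Z
        · exact hy (Or.inr ⟨hz, Or.inr h1, Or.inl (h.1.sub i h1)⟩)
        · exact hyR ⟨y, h1, Reach.refl ⟨hU (Or.inr h1), hz⟩⟩
      exact ⟨beta_adj hw.1 e hyX, fun hh => hh.elim hyR fun hz => hy (Or.inr hz)⟩
  have hk : 0 < (X i).ncard := lt_of_lt_of_le (by omega) (h.full hB i)
  obtain ⟨x0, hx0⟩ := nonempty_of_ncard_ne_zero hk.ne'
  have hT : Conn G (T i) :=
    (h.1.pre i).resolve_left (Nonempty.ne_empty ⟨x0, h.1.sub i hx0⟩)
  have hCX : ∀ j, j ≠ i → Disjoint (C ∪ X i) (T j) := fun j hj =>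
    disjoint_union_left.2 ⟨(h.1.out j).symm, (h.1.disj _ _ hj.symm).mono_left (h.1.sub i)⟩
  have hTR : ∀ y ∈ T i ∪ R, Reach G.Adj (T i ∪ R ∪ Z') x0 y := by
    rintro y (hy | ⟨x, hx, hr⟩)
    · exact (hT.2 x0 (h.1.sub i hx0) y hy).mono
        (subset_union_left.trans subset_union_left)
    · exact ((hT.2 x0 (h.1.sub i hx0) x (h.1.sub i hx)).mono
        (subset_union_left.trans subset_union_left)).trans
        (hr.restrict fun z hz _ => Or.inl (Or.inr ⟨x, hx, hz⟩))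
  have h1 := h.1.update i (T' := T i ∪ R ∪ Z') (X' := Z')
    (fun j hj => disjoint_union_left.2 ⟨disjoint_union_left.2 ⟨h.1.disj _ _ hj.symm,
      (hCX j hj).mono_left hRC⟩, (hCX j hj).mono_left fun z hz => hz.2.1⟩)
    (Or.inr (conn_of_root (Or.inl (Or.inl (h.1.sub i hx0))) (by
      rintro y (hy | hy)
      · exact hTR y hy
      · rcases hy.2.2 with h2 | ⟨u, hu, e⟩
        · exact hTR y (Or.inl h2)
        · exact (hTR u (Or.inr hu)).tail e (Or.inr hy))))
    subset_union_right ((ncard_le_ncard fun z hz => hz.1).trans hZ.le)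
    (hW.trans diff_subset)
    (Set.disjoint_left.2 (by
      rintro v ((hv | hv) | hv) hv'
      · exact Set.disjoint_left.1 (h.1.out i) hv (hW hv').1
      · exact (hW hv').2 (Or.inl hv)
      · exact (hW hv').2 (Or.inr hv)))
  have h2 := (h.of_subset h1 (by rw [iUnion_update]; exact hW.trans diff_subset)).full hB i
  rw [Function.update_self] at h2
  have h3 : Z'.ncard ≤ Z.ncard := ncard_le_ncard fun z hz => hz.1
  omega

lemma Min.noSep [Finite V] (hB : IsBr G univ (m * k + k) 𝓑) (h : Min G 𝓑 k T X) {i j : Fin m}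
    {Z : Set V} (hZ : Z.ncard < k) :
    ∃ x ∈ X i, ∃ y ∈ X j, Reach G.Adj ((beta G 𝓑 (⋃ j, X j) ∪ X i ∪ X j) \ Z) x y := by
  by_contra hc
  push Not at hc
  obtain ⟨x, hx, y, hy, hr⟩ := h.side hB i (U := beta G 𝓑 (⋃ j, X j) ∪ X i ∪ X j) hZ
    subset_union_left fun x hx y hr => hr.right_mem.1.resolve_right fun hy => hc x hx y hy hr
  obtain ⟨x', hx', y', hy', hr'⟩ := h.side hB j (U := beta G 𝓑 (⋃ j, X j) ∪ X i ∪ X j) hZ
    (union_subset_union_left _ subset_union_left) fun x' hx' y hr => by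
      rcases hr.right_mem.1 with (h1 | h1) | h1
      · exact Or.inl h1
      · exact absurd (reach_symm hr) (hc y h1 x' hx')
      · exact Or.inr h1
  have hn := h.1.ncard_le
  have hD := beta_conn hB (Z := (⋃ j, X j) ∪ Z) ((ncard_union_le _ _).trans_lt (by omega))
  refine hc x hx x' hx' (hr.trans (((hD.2 y hy y' hy').mono fun v hv => ?_).trans (reach_symm hr')))
  exact ⟨Or.inl (Or.inl (beta_anti subset_union_left hv)), fun hz => beta_not hv (Or.inr hz)⟩

/-- the neighbours of `A` in `C` -/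
def nbIn (G : SimpleGraph V) (C A : Set V) : Set V := {v | v ∈ C ∧ ∃ u ∈ A, G.Adj u v}

theorem exists_ext [Finite V] (m k : ℕ) (hk : 0 < k) (hB : Br G univ (m * k + k)) :
    ∃ (T : Fin m → Set V) (C : Set V), (∀ i, Conn G (T i)) ∧
      (∀ i j, i ≠ j → Disjoint (T i) (T j)) ∧ (∀ i, Disjoint (T i) C) ∧
      ∀ i j, i ≠ j → Nb G (T i) (T j) ∨ Lnk G C (nbIn G C (T i)) (nbIn G C (T j)) k := by
  obtain ⟨𝓑, hB⟩ := hB
  obtain ⟨T, X, h⟩ := exists_min G 𝓑 m k
  refine ⟨T, beta G 𝓑 (⋃ j, X j), fun i => ?_, h.1.disj, h.1.out, fun i j hij => ?_⟩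
  · obtain ⟨x0, hx0⟩ := nonempty_of_ncard_ne_zero (hk.trans_le (h.full hB i)).ne'
    exact (h.1.pre i).resolve_left (Nonempty.ne_empty ⟨x0, h.1.sub i hx0⟩)
  set C := beta G 𝓑 (⋃ j, X j) with hC
  by_cases hn : Nb G (T i) (T j)
  · exact Or.inl hn
  right
  obtain ⟨H, h1, h2, -⟩ := paths_of_linked (G := G) (C := C)
    (E := fun x y => G.Adj x y ∧ y ∈ C) (fun _ _ h => h) (fun _ h => h.1)
    (menger k _ (nbIn G C (T i)) (nbIn G C (T j)) fun Z hZ => by
      obtain ⟨x, hx, y, hy, hr⟩ := h.noSep hB (i := i) (j := j) (Z := ↑Z)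
        (by rwa [ncard_coe_finset])
      have hd : ∀ v, v ∈ X i → v ∉ X j := fun v h1 h2 =>
        Set.disjoint_left.1 (h.1.disj i j hij) (h.1.sub i h1) (h.1.sub j h2)
      rcases hr.last_hit (X i) with h1 | ⟨c, hc, -, rfl | ⟨c', e1, h1⟩⟩
      · exact absurd hx h1.1.2
      · exact absurd hy (hd _ hc)
      rcases h1.first_hit (X j) with h2 | ⟨d, hd', -, rfl | ⟨d', h2, e2⟩⟩
      · exact absurd hy h2.right_mem.2
      · exact absurd ⟨c, h.1.sub i hc, d, h.1.sub j hd', e1⟩ hn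
      have hsub : ∀ v, v ∈ (((C ∪ X i ∪ X j) \ ↑Z) \ X i) \ X j → v ∈ C := fun v hv =>
        (hv.1.1.1.resolve_right hv.2).resolve_right hv.1.2
      exact ⟨c', ⟨hsub _ h2.1, c, h.1.sub i hc, e1⟩, d', ⟨hsub _ h2.right_mem, d, h.1.sub j hd',
        e2.symm⟩, h2.mono' (fun u v _ hv e => ⟨e, hsub v hv⟩) fun v hv => hv.1.1.2⟩)
  exact ⟨H, h1, h2⟩

end Pool.Agent.Work.MP_7f4e13_co.Hedge
end

-- merged part: Pool.Agent.Work.MP_7f4e13_co.Dual
section
/-! No bramble of large order gives a tree decomposition with small bags. -/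

namespace Pool.Agent.Work.MP_7f4e13_co

open Pool.Agent.Work.MP_97603a_co Set

namespace DualAux

variable {V : Type} {G : SimpleGraph V}

lemma exists_sep [Finite V] {t : ℕ} {X : Set V} (h : ¬ Br G X t) (W : Set V) :
    ∃ Z : Finset V, Z.card < t ∧
      ∀ x, 2 * (W ∩ {y | Reach G.Adj (X \ ↑Z) x y}).ncard ≤ W.ncard := by
  by_contra hc
  push Not at hc
  refine h ⟨{K | K ⊆ X ∧ Conn G K ∧ W.ncard < 2 * (W ∩ K).ncard}, fun B hB => hB.1,
    fun B hB => hB.2.1, fun B hB B' hB' => Or.inl ?_, fun Z hZ => ?_⟩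
  · by_contra hd
    rw [not_nonempty_iff_eq_empty, ← disjoint_iff_inter_eq_empty] at hd
    have h1 := ncard_union_eq (hd.mono (inter_subset_right (s := W)) (inter_subset_right (s := W)))
    have h2 : (W ∩ B ∪ W ∩ B').ncard ≤ W.ncard :=
      ncard_le_ncard (union_subset inter_subset_left inter_subset_left)
    have h3 := hB.2.2
    have h4 := hB'.2.2
    omega
  · obtain ⟨x, hx⟩ := hc Z hZ
    obtain ⟨y, -, hy⟩ : (W ∩ {y | Reach G.Adj (X \ ↑Z) x y}).Nonempty := by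
      rw [← ncard_pos]; omega
    exact ⟨_, ⟨fun z hz => (Reach.right_mem hz).1, conn_reach hy.1, hx⟩,
      fun z hz hz' => (Reach.right_mem hz').2 hz⟩

/-- neighbourhood in `Y` of the component of `v` outside `Y` -/
def nb (G : SimpleGraph V) (Y : Set V) (v : V) : Set V :=
  {y | y ∈ Y ∧ ∃ x, Reach G.Adj Yᶜ v x ∧ G.Adj x y}

structure St (G : SimpleGraph V) (t n : ℕ) (B : ℕ → Set V) (par : ℕ → ℕ) (Y : Set V) : Prop where
  pos : 0 < n
  lt : ∀ i, 0 < i → i < n → par i < i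
  rip : ∀ i, 0 < i → i < n → ∀ v ∈ B i, ∀ l < i, v ∈ B l → v ∈ B (par i)
  size : ∀ i < n, (B i).ncard ≤ 3 * t
  cov : ∀ v, v ∈ Y ↔ ∃ i < n, v ∈ B i
  edge : ∀ u ∈ Y, ∀ v ∈ Y, G.Adj u v → ∃ i < n, u ∈ B i ∧ v ∈ B i
  bd : ∀ v ∉ Y, ∃ i < n, nb G Y v ⊆ B i ∧ (nb G Y v).ncard ≤ 2 * t

lemma step [Finite V] {t n : ℕ} (h : ¬ Br G univ t) {B : ℕ → Set V} {par : ℕ → ℕ} {Y : Set V}
    (s : St G t n B par Y) {v0 : V} (hv : v0 ∉ Y) :
    ∃ B' par' Y', St G t (n + 1) B' par' Y' ∧ Y ⊆ Y' ∧ v0 ∈ Y' := by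
  classical
  obtain ⟨i0, hi0, hW, hWc⟩ := s.bd v0 hv
  set W := nb G Y v0 with hWdef
  set C := {x | Reach G.Adj Yᶜ v0 x} with hC
  obtain ⟨Z, hZ, hsep⟩ := exists_sep (G := G) (X := C ∪ W) (t := t)
    (fun h' => h (h'.mono (subset_univ _) le_rfl)) W
  set D : Set V := insert v0 (↑Z ∩ C) with hD
  have hDC : D ⊆ C := insert_subset (Reach.refl hv) inter_subset_right
  have hCY : ∀ x ∈ C, x ∉ Y := fun x hx => Reach.right_mem hx
  have hDc : D.ncard ≤ t := by
    refine (ncard_insert_le _ _).trans ?_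
    have : (↑Z ∩ C : Set V).ncard ≤ (↑Z : Set V).ncard := ncard_le_ncard inter_subset_left
    rw [ncard_coe_finset] at this
    omega
  have hold : ∀ i < n, Function.update B n (W ∪ D) i = B i := fun i hi =>
    Function.update_of_ne hi.ne _ _
  have hnew : Function.update B n (W ∪ D) n = W ∪ D := Function.update_self _ _ _
  refine ⟨Function.update B n (W ∪ D), Function.update par n i0, Y ∪ D,
    ⟨Nat.succ_pos _, ?_, ?_, ?_, ?_, ?_, ?_⟩, subset_union_left, Or.inr (mem_insert _ _)⟩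
  · intro i h0 hi
    rcases Nat.lt_succ_iff_lt_or_eq.1 hi with hi | rfl
    · rw [Function.update_of_ne hi.ne]; exact s.lt i h0 hi
    · rwa [Function.update_self]
  · intro i h0 hi v hvi l hl hvl
    rcases Nat.lt_succ_iff_lt_or_eq.1 hi with hi | rfl
    · rw [Function.update_of_ne hi.ne, hold _ ((s.lt i h0 hi).trans hi)]
      rw [hold _ hi] at hvi
      rw [hold _ (hl.trans hi)] at hvl
      exact s.rip i h0 hi v hvi l hl hvl
    · rw [Function.update_self, hold _ hi0]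
      rw [hnew] at hvi
      rw [hold _ hl] at hvl
      rcases hvi with hvi | hvi
      · exact hW hvi
      · exact absurd ((s.cov v).2 ⟨l, hl, hvl⟩) (hCY v (hDC hvi))
  · intro i hi
    rcases Nat.lt_succ_iff_lt_or_eq.1 hi with hi | rfl
    · rw [hold _ hi]; exact s.size i hi
    · rw [hnew]
      have := ncard_union_le W D
      omega
  · intro v
    constructor
    · rintro (hv | hv)
      · obtain ⟨i, hi, h'⟩ := (s.cov v).1 hv
        exact ⟨i, by omega, by rwa [hold _ hi]⟩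
      · exact ⟨n, by omega, by rw [hnew]; exact Or.inr hv⟩
    · rintro ⟨i, hi, h'⟩
      rcases Nat.lt_succ_iff_lt_or_eq.1 hi with hi | rfl
      · rw [hold _ hi] at h'
        exact Or.inl ((s.cov v).2 ⟨i, hi, h'⟩)
      · rw [hnew] at h'
        exact h'.imp (fun h => h.1) id
  · rintro u (hu | hu) v (hv | hv) e
    · obtain ⟨i, hi, h'⟩ := s.edge u hu v hv e
      exact ⟨i, by omega, by rwa [hold _ hi]⟩
    · exact ⟨n, by omega, by rw [hnew]; exact ⟨Or.inl ⟨hu, v, hDC hv, e.symm⟩, Or.inr hv⟩⟩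
    · exact ⟨n, by omega, by rw [hnew]; exact ⟨Or.inr hu, Or.inl ⟨hv, u, hDC hu, e⟩⟩⟩
    · exact ⟨n, by omega, by rw [hnew]; exact ⟨Or.inr hu, Or.inr hv⟩⟩
  · intro v hv
    have hsub : (Y ∪ D)ᶜ ⊆ Yᶜ := compl_subset_compl.2 subset_union_left
    by_cases hvC : v ∈ C
    · have h1 : nb G (Y ∪ D) v ⊆ W ∪ D := by
        rintro y ⟨hy | hy, x, hx, e⟩
        · exact Or.inl ⟨hy, x, Reach.trans hvC (hx.mono hsub), e⟩
        · exact Or.inr hy
      have h2 : nb G (Y ∪ D) v ⊆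
          (W ∩ {y | Reach G.Adj ((C ∪ W) \ ↑Z) v y}) ∪ insert v0 ↑Z := by
        intro y hy
        by_cases hyZ : y ∈ Z
        · exact Or.inr (Or.inr hyZ)
        rcases h1 hy with hy' | rfl | hy'
        · obtain ⟨-, x, hx, e⟩ := hy
          refine Or.inl ⟨hy', Reach.tail (hx.restrict fun z hz _ => ?_) e ⟨Or.inr hy', hyZ⟩⟩
          have hzC : z ∈ C := Reach.trans hvC (hz.mono hsub)
          exact ⟨Or.inl hzC, fun hz' => hz.right_mem (Or.inr (Or.inr ⟨hz', hzC⟩))⟩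
        · exact Or.inr (Or.inl rfl)
        · exact absurd hy'.1 hyZ
      refine ⟨n, by omega, by rwa [hnew], (ncard_le_ncard h2).trans ?_⟩
      refine (ncard_union_le _ _).trans ?_
      have h3 := hsep v
      have h4 := ncard_insert_le v0 (↑Z : Set V)
      rw [ncard_coe_finset] at h4
      omega
    · obtain ⟨i, hi, h1, h2⟩ := s.bd v fun h' => hv (Or.inl h')
      have h3 : nb G (Y ∪ D) v ⊆ nb G Y v := by
        rintro y ⟨hy | hy, x, hx, e⟩
        · exact ⟨hy, x, hx.mono hsub, e⟩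
        · exact absurd (Reach.trans (hDC hy)
            (reach_symm ((hx.mono hsub).tail e (hCY y (hDC hy))))) hvC
      exact ⟨i, by omega, by rw [hold _ hi]; exact h3.trans h1, (ncard_le_ncard h3).trans h2⟩

lemma exists_st [Finite V] {t : ℕ} (h : ¬ Br G univ t) :
    ∃ n B par, St G t n B par univ := by
  have key : ∀ k n B par Y, St G t n B par Y → Yᶜ.ncard ≤ k → ∃ n B par, St G t n B par univ := by
    intro k
    induction k with
    | zero =>
      intro n B par Y s hk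
      rw [Nat.le_zero, ncard_eq_zero, compl_empty_iff] at hk
      exact ⟨n, B, par, hk ▸ s⟩
    | succ k ih =>
      intro n B par Y s hk
      by_cases hY : Y = univ
      · exact ⟨n, B, par, hY ▸ s⟩
      obtain ⟨v, hv⟩ := (ne_univ_iff_exists_notMem _).1 hY
      obtain ⟨B', par', Y', s', h1, h2⟩ := step h s hv
      refine ih _ _ _ _ s' ?_
      have : Y'ᶜ.ncard < Yᶜ.ncard :=
        ncard_lt_ncard ⟨compl_subset_compl.2 h1, fun h3 => h3 hv h2⟩
      omega
  refine key _ 1 (fun _ => ∅) (fun _ => 0) ∅ ⟨one_pos, ?_, ?_, ?_, ?_, ?_, ?_⟩ le_rfl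
  · intro i h0 h1; omega
  · simp
  · simp
  · simp
  · simp
  · intro v _
    have : nb G ∅ v = ∅ := by ext; simp [nb]
    exact ⟨0, one_pos, by simp [this]⟩

/-- the tree given by parent pointers -/
def tree (n : ℕ) (par : ℕ → ℕ) : SimpleGraph (Fin n) where
  Adj i j := i ≠ j ∧ ((0 < i.1 ∧ par i = j) ∨ (0 < j.1 ∧ par j = i))
  symm := ⟨fun _ _ h => ⟨h.1.symm, h.2.symm⟩⟩
  loopless := ⟨fun _ h => h.1 rfl⟩

lemma conn_tree {n : ℕ} {par : ℕ → ℕ} (hlt : ∀ i, 0 < i → i < n → par i < i) {S : Set (Fin n)}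
    (hne : S.Nonempty) (h : ∀ i ∈ S, ∀ l ∈ S, l < i → ∀ j : Fin n, par i = j → j ∈ S) :
    Conn (tree n par) S := by
  obtain ⟨r, hr, hmin⟩ := exists_min_image S id (toFinite S) hne
  refine conn_of_root hr ?_
  have key : ∀ k, ∀ i ∈ S, i.1 ≤ k → Reach (tree n par).Adj S r i := by
    intro k
    induction k with
    | zero =>
      intro i hi h0
      have : r ≤ i := hmin i hi
      have : i = r := Fin.ext (by have : r.1 ≤ i.1 := this; omega)
      exact this ▸ Reach.refl hi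
    | succ k ih =>
      intro i hi hk
      rcases (show r ≤ i from hmin i hi).eq_or_lt with e | e
      · exact e ▸ Reach.refl hr
      · have h0 : 0 < i.1 := by have : r.1 < i.1 := e; omega
        have h1 := hlt i h0 i.2
        let j : Fin n := ⟨par i, h1.trans i.2⟩
        have hj : j ∈ S := h i hi r hr e j rfl
        refine (ih j hj (by change par i ≤ k; omega)).tail ⟨?_, Or.inr ⟨h0, rfl⟩⟩ hi
        exact fun e' => h1.ne (congrArg Fin.val e')
  exact fun i hi => key _ i hi le_rfl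

lemma isTree_tree {n : ℕ} (hn : 0 < n) {par : ℕ → ℕ} (hlt : ∀ i, 0 < i → i < n → par i < i) :
    (tree n par).IsTree := by
  have hc : (tree n par).Connected := by
    have := (conn_tree hlt (S := univ) ⟨⟨0, hn⟩, trivial⟩ fun _ _ _ _ _ _ _ => trivial).connected
    exact (SimpleGraph.induceUnivIso _).connected_iff.1 this
  rw [SimpleGraph.isTree_iff_connected_and_card]
  refine ⟨hc, le_antisymm ?_ hc.card_vert_le_card_edgeSet_add_one⟩
  let f : Fin n → Sym2 (Fin n) := fun i => s(i, if h : par i < n then ⟨par i, h⟩ else i)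
  have h1 : (tree n par).edgeSet ⊆ f '' ({⟨0, hn⟩}ᶜ) := by
    intro e he
    induction e using Sym2.ind with
    | h i j =>
      rcases he.2 with ⟨h0, e⟩ | ⟨h0, e⟩
      · refine ⟨i, fun h => h0.ne' (congrArg Fin.val h), ?_⟩
        simp [f, e]
      · refine ⟨j, fun h => h0.ne' (congrArg Fin.val h), ?_⟩
        simp [f, e]
  have h2 := (ncard_le_ncard h1).trans (ncard_image_le (toFinite _))
  have h3 := ncard_add_ncard_compl ({⟨0, hn⟩} : Set (Fin n))
  rw [ncard_singleton] at h3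
  rw [Nat.card_coe_set_eq]
  omega

end DualAux

open DualAux

theorem exists_td {V : Type} [Finite V] (G : SimpleGraph V) (t : ℕ) (h : ¬ Br G univ t) :
    ∃ (n : ℕ) (T : SimpleGraph (Fin n)) (B : Fin n → Finset V), IsTD G T B ∧
      ∀ i, (B i).card ≤ 3 * t := by
  obtain ⟨n, B, par, s⟩ := exists_st h
  refine ⟨n, tree n par, fun i => (toFinite (B i)).toFinset,
    ⟨isTree_tree s.pos s.lt, fun v => ?_, fun u v e => ?_, fun v => ?_⟩, fun i => ?_⟩
  · obtain ⟨i, hi, h'⟩ := (s.cov v).1 trivial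
    exact ⟨⟨i, hi⟩, by simpa using h'⟩
  · obtain ⟨i, hi, h'⟩ := s.edge u trivial v trivial e
    exact ⟨⟨i, hi⟩, by simpa using h'⟩
  · refine (conn_tree s.lt ?_ ?_).connected
    · obtain ⟨i, hi, h'⟩ := (s.cov v).1 trivial
      exact ⟨⟨i, hi⟩, by simpa using h'⟩
    · intro i hi l hl hli j e
      have h0 : 0 < i.1 := by have : l.1 < i.1 := hli; omega
      have := s.rip i h0 i.2 v (by simpa using hi) l hli (by simpa using hl)
      simpa [e] using this
  · rw [← ncard_eq_toFinset_card]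
    exact s.size i i.2

end Pool.Agent.Work.MP_7f4e13_co
end

-- merged part: Pool.Agent.Work.MP_7f4e13_co.Grid
section
/-! Large brambles give the double ladder as a minor. -/

namespace Pool.Agent.Work.MP_7f4e13_co

open Pool.Agent.Work.MP_97603a_co Set

namespace GridAux

variable {V : Type} {G : SimpleGraph V}

/-- three rails and `N` disjoint paths meeting all of them -/
def TStar (G : SimpleGraph V) (N : ℕ) : Prop :=
  ∃ (R : Fin 3 → Pth G) (Q : Fin N → Pth G), (∀ i j, i ≠ j → Disjoint (R i).set (R j).set) ∧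
    (∀ i j, i ≠ j → Disjoint (Q i).set (Q j).set) ∧ ∀ j r, ((Q j).set ∩ (R r).set).Nonempty

lemma exists_mid (Q : Pth G) (R : Fin 3 → Set V) (hR : ∀ i j, i ≠ j → Disjoint (R i) (R j))
    (h : ∀ r, (Q.set ∩ R r).Nonempty) : ∃ t : Fin 3 × Fin 3 × Fin 3, t.1 ≠ t.2.1 ∧ t.2.1 ≠ t.2.2 ∧
      t.1 ≠ t.2.2 ∧ ∃ (M : Pth G) (a c : V), M.set ⊆ Q.set ∧ a ∈ Q.set ∧ c ∈ Q.set ∧
        Obj G (R t.1) (R t.2.2) M.set a c ∧ (M.set ∩ R t.2.1).Nonempty := by
  classical
  have hex : ∃ d, ∃ i, i + d ≤ Q.m ∧ ∀ r, ∃ n, i ≤ n ∧ n ≤ i + d ∧ Q.p n ∈ R r :=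
    ⟨Q.m, 0, by omega, fun r => by
      obtain ⟨_, hv, hv'⟩ := h r
      obtain ⟨n, hn, rfl⟩ := Pth.mem_set.1 hv
      exact ⟨n, by omega, by omega, hv'⟩⟩
  obtain ⟨i, hi, hall⟩ := Nat.find_spec hex
  have hmin := fun d (hd : d < Nat.find hex) => Nat.find_min hex hd
  generalize Nat.find hex = d at hi hall hmin
  have huniq : ∀ {v r r'}, v ∈ R r → v ∈ R r' → r = r' := fun {v r r'} h1 h2 => by
    by_contra e
    exact Set.disjoint_left.1 (hR r r' e) h1 h2
  have hd : 0 < d := by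
    obtain ⟨n, h1, h2, h3⟩ := hall 0
    obtain ⟨n', h1', h2', h3'⟩ := hall 1
    by_contra hd
    rw [show n' = n by omega] at h3'
    exact absurd (huniq h3 h3') (by decide)
  have h1 := hmin (d - 1) (by omega)
  push Not at h1
  obtain ⟨x, hx⟩ := h1 (i + 1) (by omega)
  obtain ⟨z, hz⟩ := h1 i (by omega)
  have hx' : Q.p i ∈ R x := by
    obtain ⟨n, h1, h2, h3⟩ := hall x
    by_cases e : n = i
    · exact e ▸ h3
    · exact absurd h3 (hx n (by omega) (by omega))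
  have hz' : Q.p (i + d) ∈ R z := by
    obtain ⟨n, h1, h2, h3⟩ := hall z
    by_cases e : n = i + d
    · exact e ▸ h3
    · exact absurd h3 (hz n (by omega) (by omega))
  have hxz : x ≠ z := fun e => hz i le_rfl (by omega) (e ▸ hx')
  obtain ⟨y, hy1, hy2⟩ : ∃ y, x ≠ y ∧ y ≠ z := by
    revert x z
    suffices ∀ x z : Fin 3, ∃ y, x ≠ y ∧ y ≠ z from fun x _ z _ _ _ _ => this x z
    decide
  obtain ⟨n, hn1, hn2, hn3⟩ := hall y
  have hn4 : n ≠ i := fun e => hy1 (huniq hx' (e ▸ hn3))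
  have hn5 : n ≠ i + d := fun e => hy2 (huniq (e ▸ hn3) hz')
  have hb : i + d - 1 ≤ Q.m := by omega
  have hset := Q.sub_set (show i + 1 ≤ i + d - 1 by omega) hb
  refine ⟨(x, y, z), hy1, hy2, hxz, Q.sub (i + 1) (i + d - 1) hb, Q.p i, Q.p (i + d), ?_,
    Q.p_mem_set (by omega), Q.p_mem_set hi, ⟨Pth.conn_set _, ?_, ?_, hx', hz', ?_, ?_⟩, ?_⟩ <;>
    rw [hset]
  · exact Q.seg_subset _ hb
  · rw [Set.disjoint_left]
    rintro _ ⟨l, h2, h3, rfl⟩
    exact hx l h2 (by omega)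
  · rw [Set.disjoint_left]
    rintro _ ⟨l, h2, h3, rfl⟩
    exact hz l (by omega) (by omega)
  · exact ⟨_, Q.p_mem_seg le_rfl (by omega), _, rfl, (Q.adj i (by omega)).symm⟩
  · refine ⟨_, Q.p_mem_seg (by omega) le_rfl, _, rfl, ?_⟩
    have := Q.adj (i + d - 1) (by omega)
    rwa [show i + d - 1 + 1 = i + d by omega] at this
  · exact ⟨_, Q.p_mem_seg (by omega) (by omega), hn3⟩

/-- the reversed path -/
def rev (P : Pth G) : Pth G where
  p i := P.p (P.m - i)
  m := P.m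
  adj i hi := by
    have := (P.adj (P.m - (i + 1)) (by omega)).symm
    rwa [show P.m - (i + 1) + 1 = P.m - i by omega] at this
  inj i hi j hj e := by
    have := P.inj _ (by omega) _ (by omega) e
    omega

lemma rev_set (P : Pth G) : (rev P).set = P.set := by
  ext v
  simp only [Pth.mem_set]
  constructor
  · rintro ⟨i, -, rfl⟩
    exact ⟨_, Nat.sub_le _ _, rfl⟩
  · rintro ⟨i, hi, rfl⟩
    exact ⟨P.m - i, Nat.sub_le _ _, congrArg P.p (by change P.m - (P.m - i) = i; omega)⟩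

variable {ι : Type} {M : ι → Set V} {B : Pth G}

/-- a piece of `B` from `M j` to `M j'` with no other object inside -/
def Lk (B : Pth G) (M : ι → Set V) (j j' : ι) : Prop :=
  ∃ u v, u < v ∧ v ≤ B.m ∧ B.p u ∈ M j ∧ B.p v ∈ M j' ∧ ∀ w, u < w → w < v → ∀ x, B.p w ∉ M x

lemma Lk.rev {j j' : ι} (h : Lk B M j j') : Lk (rev B) M j' j := by
  obtain ⟨u, v, h1, h2, h3, h4, h5⟩ := h
  refine ⟨B.m - v, B.m - u, by omega, Nat.sub_le _ _, ?_, ?_, fun w h6 h7 => ?_⟩
  · change B.p _ ∈ _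
    rwa [show B.m - (B.m - v) = v by omega]
  · change B.p _ ∈ _
    rwa [show B.m - (B.m - u) = u by omega]
  · exact h5 (B.m - w) (by omega) (by omega)

/-- an object together with the pieces of `B` following it -/
def Mp (B : Pth G) (M : ι → Set V) (j : ι) : Set V :=
  M j ∪ {v | ∃ u n, u < n ∧ n ≤ B.m ∧ B.p u ∈ M j ∧ (∀ w, u < w → w ≤ n → ∀ x, B.p w ∉ M x) ∧
    B.p n = v}

lemma Mp_conn {j : ι} (h : Conn G (M j)) : Conn G (Mp B M j) := by
  obtain ⟨a, ha⟩ := h.1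
  refine conn_of_root (Or.inl ha) ?_
  rintro v (hv | ⟨u, n, h1, h2, h3, h4, rfl⟩)
  · exact (h.2 a ha v hv).mono subset_union_left
  · refine ((h.2 a ha _ h3).mono subset_union_left).trans
      (reach_seg B.adj u n h1.le h2 fun w h5 h6 => ?_)
    rcases h5.eq_or_lt with rfl | h5
    · exact Or.inl h3
    · exact Or.inr ⟨u, w, h5, by omega, h3, fun w' h7 h8 => h4 w' h7 (by omega), rfl⟩

lemma Mp_disj_M (hd : ∀ i j, i ≠ j → Disjoint (M i) (M j)) {i j : ι} (e : i ≠ j) :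
    Disjoint (Mp B M i) (M j) := by
  rw [Set.disjoint_left]
  rintro v (hv | ⟨u, n, h1, -, -, h4, rfl⟩)
  · exact Set.disjoint_left.1 (hd i j e) hv
  · exact h4 n h1 le_rfl j

lemma Mp_disj (hd : ∀ i j, i ≠ j → Disjoint (M i) (M j)) {i j : ι} (e : i ≠ j) :
    Disjoint (Mp B M i) (Mp B M j) := by
  rw [Set.disjoint_left]
  rintro v hv (hv' | ⟨u', n', h1', h2', h3', h4', rfl⟩)
  · exact Set.disjoint_left.1 (Mp_disj_M hd e) hv hv'
  rcases hv with hv | ⟨u, n, h1, h2, h3, h4, e'⟩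
  · exact h4' n' h1' le_rfl i hv
  obtain rfl := B.inj n h2 n' h2' e'
  rcases lt_trichotomy u u' with h | rfl | h
  · exact h4 u' h h1'.le j h3'
  · exact Set.disjoint_left.1 (hd i j e) h3 h3'
  · exact h4' u h h1.le i h3

lemma Mp_obj {A C : Set V} (hA : Disjoint B.set A) (hC : Disjoint B.set C) {j : ι} {a c : V}
    (h : Obj G A C (M j) a c) : Obj G A C (Mp B M j) a c := by
  have : {v | ∃ u n, u < n ∧ n ≤ B.m ∧ B.p u ∈ M j ∧ (∀ w, u < w → w ≤ n → ∀ x, B.p w ∉ M x) ∧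
      B.p n = v} ⊆ B.set := fun _ ⟨_, n, _, h2, _, _, e⟩ => e ▸ B.p_mem_set h2
  exact h.union (Mp_conn h.conn) (hA.mono_left this) (hC.mono_left this)

lemma nb_Mp {j : ι} {u v : ℕ} (h1 : u < v) (h2 : v ≤ B.m) (h3 : B.p u ∈ M j)
    (h5 : ∀ w, u < w → w < v → ∀ x, B.p w ∉ M x) : Nb G (Mp B M j) {B.p v} := by
  refine ⟨B.p (v - 1), ?_, _, rfl, ?_⟩
  · by_cases e : u = v - 1
    · exact Or.inl (e ▸ h3)
    · exact Or.inr ⟨u, v - 1, by omega, by omega, h3, fun w h6 h7 => h5 w h6 (by omega), rfl⟩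
  · have := B.adj (v - 1) (by omega)
    rwa [show v - 1 + 1 = v by omega] at this

/-- the graph of links -/
def Gam (B : Pth G) (M : ι → Set V) : SimpleGraph ι where
  Adj i j := i ≠ j ∧ (Lk B M i j ∨ Lk B M j i)
  symm := ⟨fun _ _ h => ⟨h.1.symm, h.2.symm⟩⟩
  loopless := ⟨fun _ h => h.1 rfl⟩

lemma Gam_reach (hd : ∀ i j, i ≠ j → Disjoint (M i) (M j)) (d : ℕ) : ∀ u v, v ≤ u + d → u ≤ v →
    v ≤ B.m → ∀ i j, B.p u ∈ M i → B.p v ∈ M j → Reach (Gam B M).Adj univ i j := by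
  induction d with
  | zero =>
    intro u v h1 h2 _ i j hi hj
    obtain rfl : u = v := by omega
    obtain rfl : i = j := by
      by_contra e
      exact Set.disjoint_left.1 (hd i j e) hi hj
    exact Reach.refl trivial
  | succ d ih =>
    intro u v h1 h2 h3 i j hi hj
    by_cases h4 : v ≤ u + d
    · exact ih u v h4 h2 h3 i j hi hj
    by_cases h5 : ∃ w, u < w ∧ w < v ∧ ∃ x, B.p w ∈ M x
    · obtain ⟨w, h6, h7, x, hx⟩ := h5
      exact (ih u w (by omega) h6.le (by omega) i x hi hx).trans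
        (ih w v (by omega) h7.le h3 x j hx hj)
    · push Not at h5
      by_cases e : i = j
      · exact e ▸ Reach.refl trivial
      · exact reach_adj trivial trivial ⟨e, Or.inl ⟨u, v, by omega, h3, hi, hj, h5⟩⟩

lemma star_case [Finite ι] {A C : Set V} (hA : Disjoint B.set A) (hC : Disjoint B.set C)
    {P : ι → Pth G} (hd : ∀ i j, i ≠ j → Disjoint (P i).set (P j).set) {a c : ι → V}
    (ho : ∀ j, Obj G A C (P j).set (a j) (c j)) {L : ℕ} {b : ι}
    (hL : L < {x | x ≠ b ∧ Lk B (fun j => (P j).set) x b}.ncard) :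
    ∃ (K : ℕ → Set V) (e : ℕ → ι), Chain G K L ∧ InjOn e (Iic L) ∧
      ∀ i ≤ L, Obj G A C (K i) (a (e i)) (c (e i)) := by
  have hex : ∀ x ∈ {x | x ≠ b ∧ Lk B (fun j => (P j).set) x b}, ∃ u v y : ℕ, u < v ∧ v ≤ B.m ∧
      B.p u ∈ (P x).set ∧ y ≤ (P b).m ∧ (P b).p y = B.p v ∧
      ∀ w, u < w → w < v → ∀ x, B.p w ∉ (P x).set := by
    rintro x ⟨-, u, v, h1, h2, h3, h4, h5⟩
    obtain ⟨y, hy, e⟩ := Pth.mem_set.1 h4
    exact ⟨u, v, y, h1, h2, h3, hy, e, h5⟩
  choose! u v y h1 h2 h3 h4 h5 h6 using hex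
  refine chain_of_star (toFinite _) hL (P b) (ho b).dA (ho b).dC
    (O := Mp B fun j => (P j).set) (fun x _ => Mp_obj hA hC (ho x))
    (fun x _ x' _ e => Mp_disj hd e) (fun x hx => Mp_disj_M hd hx.1) (y := y) ?_
    fun x hx => ⟨h4 x hx, h5 x hx ▸ nb_Mp (h1 x hx) (h2 x hx) (h3 x hx) (h6 x hx)⟩
  intro x hx x' hx' e
  have e1 : v x = v x' := B.inj _ (h2 x hx) _ (h2 x' hx') (by rw [← h5 x hx, ← h5 x' hx', e])
  by_contra hne
  rcases lt_trichotomy (u x) (u x') with h | h | h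
  · exact h6 x hx _ h (e1 ▸ h1 x' hx') x' (h3 x' hx')
  · exact Set.disjoint_left.1 (hd x x' hne) (h3 x hx) (h ▸ h3 x' hx')
  · exact h6 x' hx' _ h (e1 ▸ h1 x hx) x (h3 x hx)

lemma chain_of_mid [Finite ι] {A C : Set V} (hA : Disjoint B.set A) (hC : Disjoint B.set C)
    {P : ι → Pth G} (hd : ∀ i j, i ≠ j → Disjoint (P i).set (P j).set) {a c : ι → V}
    (ho : ∀ j, Obj G A C (P j).set (a j) (c j)) (hB : ∀ j, ((P j).set ∩ B.set).Nonempty) {L : ℕ}
    (hL : (2 * L + 1) ^ L < Nat.card ι) :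
    ∃ (K : ℕ → Set V) (e : ℕ → ι), Chain G K L ∧ InjOn e (Iic L) ∧
      ∀ i ≤ L, Obj G A C (K i) (a (e i)) (c (e i)) := by
  set M : ι → Set V := fun j => (P j).set with hM
  by_cases hdeg : DegLe (Gam B M) univ (2 * L)
  · have : Nonempty ι := (Nat.card_pos_iff.1 (by omega)).1
    obtain ⟨j0⟩ := this
    have h1 := ncard_ball_le hdeg (subset_univ {j0}) L
    rw [ncard_singleton, one_mul] at h1
    obtain ⟨j, hj⟩ : ∃ j, j ∉ ball (Gam B M) univ {j0} L := by
      by_contra hc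
      push Not at hc
      rw [eq_univ_of_forall hc, ncard_univ] at h1
      omega
    have hr : Reach (Gam B M).Adj univ j0 j := by
      obtain ⟨_, h2, h3⟩ := hB j0
      obtain ⟨u, hu, rfl⟩ := Pth.mem_set.1 h3
      obtain ⟨_, h4, h5⟩ := hB j
      obtain ⟨v, hv, rfl⟩ := Pth.mem_set.1 h5
      rcases le_total u v with h | h
      · exact Gam_reach hd v u v (by omega) h hv _ _ h2 h4
      · exact reach_symm (Gam_reach hd u v u (by omega) h hu _ _ h4 h2)
    obtain ⟨W, -, -, hW⟩ := exists_long_pth hr hj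
    refine ⟨fun i => Mp B M (W.p i), W.p, ⟨fun i _ => Mp_conn (ho _).conn, fun i hi j hj e =>
      Mp_disj hd fun e' => e (W.inj i (by omega) j (by omega) e'), fun i hi => ?_⟩,
      fun i hi j hj e => W.inj i (hW.le.trans' hi) j (hW.le.trans' hj) e,
      fun i _ => Mp_obj hA hC (ho _)⟩
    rcases (W.adj i (by omega)).2 with ⟨u, v, h1, h2, h3, h4, h5⟩ | ⟨u, v, h1, h2, h3, h4, h5⟩
    · exact (nb_Mp h1 h2 h3 h5).mono subset_rfl (singleton_subset_iff.2 (Or.inl h4))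
    · exact ((nb_Mp h1 h2 h3 h5).mono subset_rfl (singleton_subset_iff.2 (Or.inl h4))).symm
  · simp only [DegLe, not_forall, not_le] at hdeg
    obtain ⟨b, -, hb⟩ := hdeg
    have h1 : nbr (Gam B M) univ b ⊆
        {x | x ≠ b ∧ Lk B M x b} ∪ {x | x ≠ b ∧ Lk (rev B) M x b} := by
      rintro x ⟨-, e, h | h⟩
      · exact Or.inr ⟨e.symm, h.rev⟩
      · exact Or.inl ⟨e.symm, h⟩
    have h2 := (ncard_le_ncard h1).trans (ncard_union_le _ _)
    by_cases h3 : L < {x | x ≠ b ∧ Lk B M x b}.ncard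
    · exact star_case hA hC hd ho h3
    · have h4 : L < {x | x ≠ b ∧ Lk (rev B) M x b}.ncard := by omega
      exact star_case (B := rev B) (by rwa [rev_set]) (by rwa [rev_set]) hd ho h4

lemma grid_of_tstar (k : ℕ) : ∃ N : ℕ, ∀ (V : Type) (G : SimpleGraph V), TStar G N →
    Minor G (SimpleGraph.pathGraph 3 □ SimpleGraph.pathGraph k) := by
  classical
  obtain ⟨L, hL⟩ := grid_of_chain k
  refine ⟨27 * (2 * L + 1) ^ L + 1, fun V G ⟨R, Q, hR, hQ, h⟩ => ?_⟩
  choose t ht1 ht2 ht3 M a c hM ha hc ho hmid using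
    fun j => exists_mid (Q j) (fun r => (R r).set) hR (h j)
  obtain ⟨s, -, hs⟩ := Finset.exists_lt_card_fiber_of_mul_lt_card_of_maps_to (s := Finset.univ)
    (t := Finset.univ) (f := t) (n := (2 * L + 1) ^ L) (fun _ _ => Finset.mem_univ _) (by simp)
  obtain ⟨j0, hj0⟩ := Finset.card_pos.1 (lt_of_le_of_lt (Nat.zero_le _) hs)
  have e0 : t j0 = s := (Finset.mem_filter.1 hj0).2
  have hinj : ∀ f : Fin (27 * (2 * L + 1) ^ L + 1) → V, (∀ j, f j ∈ (Q j).set) →
      Function.Injective f := fun f hf i j e => by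
    by_contra hij
    exact Set.disjoint_left.1 (hQ i j hij) (hf i) (e ▸ hf j)
  obtain ⟨K, e, h1, h2, h3⟩ := chain_of_mid (ι := {j // t j = s}) (B := R s.2.1)
    (A := (R s.1).set) (C := (R s.2.2).set) (hR _ _ (e0 ▸ ht1 j0).symm) (hR _ _ (e0 ▸ ht2 j0))
    (P := fun j => M j) (fun i j e => (hQ i j fun e' => e (Subtype.ext e')).mono (hM i) (hM j))
    (a := fun j => a j) (c := fun j => c j)
    (fun j => by have := ho j; rwa [j.2] at this) (fun j => by have := hmid j; rwa [j.2] at this)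
    (L := L) (by rwa [Nat.card_eq_fintype_card, Fintype.card_subtype])
  exact hL V G _ _ K _ _ (hR _ _ (e0 ▸ ht3 j0)) h1 h3
    (fun i hi j hj e' => h2 hi hj (Subtype.ext (hinj a ha e')))
    fun i hi j hj e' => h2 hi hj (Subtype.ext (hinj c hc e'))

lemma tstar_of_mesh {N : ℕ} (h : Mesh G (N + 3)) : TStar G N := by
  obtain ⟨A, B, hA, hB, h⟩ := h
  exact ⟨fun r => A (Fin.castLE (by omega) r), fun j => B (Fin.castLE (by omega) j),
    fun i j e => hA _ _ ((Fin.castLE_injective _).ne e),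
    fun i j e => hB _ _ ((Fin.castLE_injective _).ne e), fun j r => inter_comm _ _ ▸ h _ _⟩

lemma tstar_or_clique {l N : ℕ} (h : Net G l (l * N + 1)) :
    TStar G N ∨ Minor G (⊤ : SimpleGraph (Fin l)) := by
  classical
  obtain ⟨P, Q, hP, hQ, h⟩ := h
  by_cases hc : ∀ e : Fin l × Fin l, e.1 ≠ e.2 → ∃ r, ∀ a, a ≠ e.1 → a ≠ e.2 →
      Disjoint (Q (e, r)).set (P a).set
  · right
    choose! r hr using hc
    choose s hs hs' using fun e : Fin l × Fin l => (h (e, r e)).1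
    let D : Fin l × Fin l → Set V := fun e =>
      {x | Reach G.Adj ((Q (e, r e)).set \ (P e.2).set) (s e) x}
    have hD : ∀ e, D e ⊆ (Q (e, r e)).set \ (P e.2).set := fun e x hx => Reach.right_mem hx
    have hsD : ∀ e, e.1 ≠ e.2 → s e ∈ (Q (e, r e)).set \ (P e.2).set := fun e he =>
      ⟨hs e, Set.disjoint_left.1 (hP _ _ he) (hs' e)⟩
    have hDP : ∀ i j a, j ≠ i → a ≠ i → Disjoint (D (i, j)) (P a).set := by
      intro i j a hj ha
      by_cases e : a = j
      · exact e ▸ Set.disjoint_left.2 fun x hx => (hD _ hx).2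
      · exact (hr (i, j) hj.symm a ha e).mono_left ((hD _).trans diff_subset)
    refine ⟨fun i => (P i).set ∪ ⋃ j : {j // j ≠ i}, D (i, j), fun i => ?_, fun i j e => ?_,
      fun i j e => ?_⟩
    · exact (P i).conn_set.union_iUnion (fun j => conn_reach (hsD _ j.2.symm))
        fun j => Or.inl ⟨s (i, j), hs' (i, j), Reach.refl (hsD _ j.2.symm)⟩
    · simp only [disjoint_union_left, disjoint_union_right, disjoint_iUnion_left,
        disjoint_iUnion_right]
      exact ⟨⟨hP i j e, fun a => hDP i a j a.2 e.symm⟩, fun a => ⟨(hDP j a i a.2 e).symm,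
        fun b => (hQ _ _ fun e' => e (congrArg (fun x => x.1.1) e')).mono
          ((hD _).trans diff_subset) ((hD _).trans diff_subset)⟩⟩
    · have e' : i ≠ j := e
      obtain ⟨y, hy, hy'⟩ := (h ((i, j), r (i, j))).2
      rcases (((Q ((i, j), r (i, j))).conn_set.2 _ (hs _) y hy).first_hit (P j).set) with
        h1 | ⟨c, hc, -, rfl | ⟨c', h1, h2⟩⟩
      · exact absurd hy' h1.right_mem.2
      · exact absurd hc (hsD (i, j) e').2
      · exact ⟨c', Or.inr (mem_iUnion.2 ⟨⟨j, e'.symm⟩, h1⟩), c, Or.inl hc, h2⟩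
  · left
    push Not at hc
    obtain ⟨e, he, hc⟩ := hc
    choose f h1 h2 h3 using hc
    obtain ⟨a, -, ha⟩ := Finset.exists_lt_card_fiber_of_mul_lt_card_of_maps_to (s := Finset.univ)
      (t := Finset.univ) (f := f) (n := N) (fun _ _ => Finset.mem_univ _) (by simp)
    obtain ⟨j0, hj0⟩ := Finset.card_pos.1 (lt_of_le_of_lt (Nat.zero_le _) ha)
    have e0 : f j0 = a := (Finset.mem_filter.1 hj0).2
    obtain ⟨g, hg, hg'⟩ := exists_inj_fin ha.le
    have e1 := hP _ _ he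
    have e2 := hP _ _ (e0 ▸ h1 j0)
    have e3 := hP _ _ (e0 ▸ h2 j0)
    refine ⟨![P e.1, P e.2, P a], fun j => Q (e, g j), fun i j hij => ?_,
      fun i j hij => hQ _ _ fun e' => hij (hg (congrArg Prod.snd e')), fun j r => ?_⟩
    · fin_cases i <;> fin_cases j
      exacts [absurd rfl hij, e1, e2.symm, e1.symm, absurd rfl hij, e3.symm, e2, e3,
        absurd rfl hij]
    · fin_cases r
      · exact (h (e, g j)).1
      · exact (h (e, g j)).2
      · have := h3 (g j)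
        rw [(Finset.mem_filter.1 (hg' j)).2] at this
        exact not_disjoint_iff_nonempty_inter.1 this

end GridAux

open GridAux

theorem grid_minor (k : ℕ) : ∃ g : ℕ, ∀ (V : Type) [Finite V] (G : SimpleGraph V),
    Br G univ g → Minor G (SimpleGraph.pathGraph 3 □ SimpleGraph.pathGraph k) := by
  obtain ⟨N, hN⟩ := grid_of_tstar k
  obtain ⟨g, hg⟩ := mesh_or_net (N + 3) (3 * k) (3 * k * N + 1)
  refine ⟨g, fun V _ G h => ?_⟩
  rcases hg V G h with h | h
  · exact hN V G (tstar_of_mesh h)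
  rcases tstar_or_clique h with h | ⟨Y, h⟩
  · exact hN V G h
  · exact ⟨fun w => Y (finProdFinEquiv w), fun w => h.conn _,
      fun w w' e => h.disj _ _ (finProdFinEquiv.injective.ne e),
      fun w w' e => h.adj _ _ (finProdFinEquiv.injective.ne e.ne)⟩

end Pool.Agent.Work.MP_7f4e13_co
end

-- merged part: Pool.Agent.Work.MP_7f4e13_co.Clean
section
/-! From minors to induced minors when the clusters of branch vertices are small. -/

namespace Pool.Agent.Work.MP_7f4e13_co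

open Pool.Agent.Work.MP_97603a_co Set

namespace CleanAux

variable {V : Type} {G : SimpleGraph V} {X S : Set V}

/-- deleting a leaf keeps a set connected -/
lemma conn_diff_leaf {u u' : V} (h : Conn G S) (hu' : u' ∈ S) (hne : u' ≠ u)
    (hl : ∀ x ∈ S, G.Adj u x → x = u') : Conn G (S \ {u}) := by
  refine conn_of_root (a := u') ⟨hu', hne⟩ fun b hb => ?_
  have := (h.2 u' hu' b hb.1).ind (P := fun x => x = u ∨ Reach G.Adj (S \ {u}) u' x)
    (Or.inr (Reach.refl ⟨hu', hne⟩)) fun x y _ ih e hy => by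
      by_cases e' : y = u
      · exact Or.inl e'
      rcases ih with rfl | ih
      · rw [hl y hy e]
        exact Or.inr (Reach.refl ⟨hu', hne⟩)
      · exact Or.inr (ih.tail e ⟨hy, e'⟩)
  exact this.resolve_left hb.2

lemma three_le [Finite V] {u a b c : V} (ha : a ∈ nbr G X u) (hb : b ∈ nbr G X u)
    (hc : c ∈ nbr G X u) (h1 : a ≠ b) (h2 : a ≠ c) (h3 : b ≠ c) : 3 ≤ (nbr G X u).ncard := by
  rw [← ncard_eq_three.2 ⟨a, b, c, h1, h2, h3, rfl⟩]
  exact ncard_le_ncard (insert_subset ha (insert_subset hb (singleton_subset_iff.2 hc)))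

lemma prune [Finite V] {W : Type} {F : SimpleGraph W}
    (hF : ∀ w, ∃ w1 w2, w1 ≠ w2 ∧ F.Adj w w1 ∧ F.Adj w w2) (k : ℕ) : ∀ Y : W → Set V,
    Model G F Y → (∀ w, Y w ⊆ X) →
    (∀ w w', ∀ u ∈ Y w, ∀ v ∈ Y w', G.Adj u v → Brn G X u → Brn G X v → w = w') →
    (⋃ w, Y w).ncard ≤ k → IndMinor G F := by
  classical
  induction k with
  | zero =>
    intro Y h _ _ hk
    refine ⟨Y, h, fun w _ _ _ => ?_⟩
    rw [Nat.le_zero, ncard_eq_zero] at hk
    obtain ⟨x, hx⟩ := (h.conn w).1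
    exact absurd (hk.subset (mem_iUnion.2 ⟨w, hx⟩)) (notMem_empty _)
  | succ k ih =>
    intro Y h hX hb hk
    by_cases hc : ∀ w w', w ≠ w' → Nb G (Y w) (Y w') → F.Adj w w'
    · exact ⟨Y, h, hc⟩
    have huniq : ∀ {v w w'}, v ∈ Y w → v ∈ Y w' → w = w' := fun {v w w'} h1 h2 => by
      by_contra e
      exact Set.disjoint_left.1 (h.disj w w' e) h1 h2
    obtain ⟨w, w', hne, hna, u, hu, v, hv, e, hnb⟩ : ∃ w w', w ≠ w' ∧ ¬ F.Adj w w' ∧
        ∃ u ∈ Y w, ∃ v ∈ Y w', G.Adj u v ∧ ¬ Brn G X u := by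
      push Not at hc
      obtain ⟨w, w', hne, ⟨u, hu, v, hv, e⟩, hna⟩ := hc
      by_cases h1 : Brn G X u
      · exact ⟨w', w, hne.symm, fun h => hna h.symm, v, hv, u, hu, e.symm,
          fun h2 => hne (hb w w' u hu v hv e h1 h2)⟩
      · exact ⟨w, w', hne, hna, u, hu, v, hv, e, h1⟩
    have h3 : ∀ a b, a ∈ nbr G X u → b ∈ nbr G X u → a ≠ v → b ≠ v → a = b := by
      intro a b ha hb' h1 h2
      by_contra h4
      exact hnb ⟨hX w hu, three_le ha hb' ⟨hX w' hv, e⟩ h4 h1 h2⟩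
    obtain ⟨u', hu', e'⟩ : ∃ u' ∈ Y w, G.Adj u u' := by
      by_contra h4
      have h5 : ∀ x ∈ Y w, x = u := fun x hx => by
        by_contra h5
        exact h4 ((h.conn w).exists_adj hu hx (Ne.symm h5))
      obtain ⟨w1, w2, h6, h7, h8⟩ := hF w
      obtain ⟨x1, hx1, y1, hy1, e1⟩ := h.adj w w1 h7
      obtain ⟨x2, hx2, y2, hy2, e2⟩ := h.adj w w2 h8
      rw [h5 x1 hx1] at e1
      rw [h5 x2 hx2] at e2
      have := h3 y1 y2 ⟨hX _ hy1, e1⟩ ⟨hX _ hy2, e2⟩
        (fun e => hna (huniq (e ▸ hy1) hv ▸ h7)) fun e => hna (huniq (e ▸ hy2) hv ▸ h8)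
      exact h6 (huniq hy1 (this ▸ hy2))
    have h4 : ∀ x ∈ X, G.Adj u x → x = v ∨ x = u' := fun x hx e1 => by
      by_cases h5 : x = v
      · exact Or.inl h5
      · exact Or.inr (h3 x u' ⟨hx, e1⟩ ⟨hX w hu', e'⟩ h5 fun e2 => hne (huniq hu' (e2 ▸ hv)))
    have h5 : ∀ a b, F.Adj a b → ∀ x ∈ Y a, ∀ y ∈ Y b, G.Adj x y → x ≠ u := by
      rintro a b hab x hx y hy e1 rfl
      obtain rfl := huniq hx hu
      rcases h4 y (hX _ hy) e1 with rfl | rfl
      · exact hna (huniq hy hv ▸ hab)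
      · exact hab.ne (huniq hu' hy)
    refine ih (fun a => Y a \ {u}) ⟨fun a => ?_, fun a b hab =>
      (h.disj a b hab).mono diff_subset diff_subset, fun a b hab => ?_⟩
      (fun a => diff_subset.trans (hX a))
      (fun a b x hx y hy => hb a b x hx.1 y hy.1) ?_
    · by_cases e1 : a = w
      · subst e1
        exact conn_diff_leaf (h.conn a) hu' e'.ne' fun x hx e1 =>
          (h4 x (hX _ hx) e1).resolve_left fun e2 => hne (huniq (e2 ▸ hx) hv)
      · rw [diff_singleton_eq_self fun h6 => e1 (huniq h6 hu)]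
        exact h.conn a
    · obtain ⟨x, hx, y, hy, e1⟩ := h.adj a b hab
      exact ⟨x, ⟨hx, h5 a b hab x hx y hy e1⟩, y, ⟨hy, h5 b a hab.symm y hy x hx e1.symm⟩, e1⟩
    · have : (⋃ a, Y a \ {u}).ncard < (⋃ a, Y a).ncard :=
        ncard_lt_ncard ⟨iUnion_mono fun a => diff_subset, fun h6 => by
          obtain ⟨a, ha⟩ := mem_iUnion.1 (h6 (mem_iUnion.2 ⟨w, hu⟩))
          exact ha.2 rfl⟩
      omega

end CleanAux

open CleanAux

theorem indMinor_of_clusters {W : Type} (F : SimpleGraph W)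
    (hF : ∀ w, ∃ w1 w2, w1 ≠ w2 ∧ F.Adj w w1 ∧ F.Adj w w2) (c g : ℕ)
    (hg : ∀ (ι : Type) [Finite ι] (H : SimpleGraph ι), Br H univ g → Minor H F)
    {V : Type} [Finite V] (G : SimpleGraph V) (X : Set V) (hX : Br G X ((c + 1) * g + 1))
    (hc : ∀ K, Conn G K → (∀ v ∈ K, Brn G X v) → K.ncard ≤ c) : IndMinor G F := by
  let q : V → Set V := fun v => insert v {u | Reach G.Adj {x | Brn G X x} v u}
  have hq : ∀ u v, Reach G.Adj {x | Brn G X x} u v → q u = q v := by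
    intro u v h
    simp only [q]
    rw [insert_eq_of_mem (show u ∈ _ from Reach.refl h.1),
      insert_eq_of_mem (show v ∈ _ from Reach.refl h.right_mem)]
    ext x
    exact ⟨fun h' => (reach_symm h).trans h', fun h' => h.trans h'⟩
  have hfib : ∀ v ∈ X, fib X q (q v) = q v := by
    intro v hv
    ext u
    constructor
    · rintro ⟨-, e⟩
      exact e ▸ mem_insert _ _
    · rintro (rfl | h)
      · exact ⟨hv, rfl⟩
      · exact ⟨(Reach.right_mem h).1, (hq v u h).symm⟩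
  have hqc : ∀ v, Conn G (q v) ∧ (q v).ncard ≤ c + 1 := by
    intro v
    by_cases hv : Brn G X v
    · have h1 := conn_reach (G := G) (S := {x | Brn G X x}) hv
      refine ⟨?_, (ncard_insert_le _ _).trans
        (Nat.succ_le_succ (hc _ h1 fun _ h => Reach.right_mem (U := {x | Brn G X x}) h))⟩
      simp only [q]
      rwa [insert_eq_of_mem (show v ∈ _ from Reach.refl (U := {x | Brn G X x}) hv)]
    · have : q v = {v} := by
        ext u
        exact ⟨fun h => h.elim id fun h => absurd h.1 hv, Or.inl⟩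
      rw [this]
      exact ⟨conn_singleton v, by simp⟩
  obtain ⟨Y, hY⟩ := hg _ _ (Br.quot (q := q) (c := c + 1) (fun a => by
    rcases (fib X q a).eq_empty_or_nonempty with e | ⟨v, hv, rfl⟩
    · simp [e]
    · rw [hfib v hv]; exact (hqc v).2) hX)
  refine prune (X := X) hF _ _ (hY.of_quot (fun w => let ⟨w1, _, _, h, _⟩ := hF w; ⟨w1, h⟩)
    fun v hv => by rw [hfib v hv]; exact (hqc v).1) (fun w v hv => hv.1) ?_ le_rfl
  intro w w' u hu v hv e h1 h2
  by_contra hne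
  exact Set.disjoint_left.1 (hY.disj w w' hne) hu.2 (hq u v (reach_adj h1 h2 e) ▸ hv.2)

end Pool.Agent.Work.MP_7f4e13_co
end

-- merged part: Pool.Agent.Work.MP_7f4e13_co.Main
section
/-! Assembly. -/

namespace Pool.Agent.Work.MP_7f4e13_co

open Pool.Agent.Work.MP_97603a_co Set

namespace MainAux

lemma deg_bound (d w : ℕ) : ∃ D : ℕ, ∀ (V : Type) [Finite V] (G : SimpleGraph V) (X : Set V),
    StarFree G d → (∀ K ⊆ X, G.IsClique K → K.ncard ≤ w) → DegLe G X D := by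
  classical
  obtain ⟨N, -, hN⟩ := Pool.Agent.Lib.Ramsey.finite_ramsey Prop (d + w + 1)
  refine ⟨N, fun V _ G X hd hw v _ => ?_⟩
  by_contra hc
  obtain ⟨f, hf, hf'⟩ := exists_inj_fin (A := (toFinite (nbr G X v)).toFinset) (s := N)
    (by rw [← ncard_eq_toFinset_card]; omega)
  obtain ⟨g, hg, p, hp⟩ := hN fun i j => G.Adj (f i) (f j)
  have hinj := hf.comp hg.injective
  have hmem : ∀ i, f (g i) ∈ nbr G X v := fun i => by simpa using hf' (g i)
  have hp' : ∀ i j, i ≠ j → (G.Adj (f (g i)) (f (g j)) ↔ p) := fun i j e => by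
    rcases lt_or_gt_of_ne e with h | h
    · rw [hp i j h]
    · rw [G.adj_comm, hp j i h]
  by_cases e : p
  · have := hw (range (f ∘ g)) (by rintro _ ⟨i, rfl⟩; exact (hmem i).1) (by
      rintro _ ⟨i, rfl⟩ _ ⟨j, rfl⟩ h
      exact (hp' i j fun e' => h (e' ▸ rfl)).2 e)
    rw [ncard_range_of_injective hinj] at this
    simp at this
  · have := hd v (Finset.univ.image (f ∘ g)) (fun x hx => by
      obtain ⟨i, -, rfl⟩ := Finset.mem_image.1 hx
      exact (hmem i).2) (fun x hx y hy h => by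
      obtain ⟨i, -, rfl⟩ := Finset.mem_image.1 hx
      obtain ⟨j, -, rfl⟩ := Finset.mem_image.1 hy
      exact e ((hp' i j fun e' => h.ne (e' ▸ rfl)).1 h))
    rw [Finset.card_image_of_injective _ hinj] at this
    simp at this
    omega

lemma ncard_le_mul {V ι : Type} [Finite V] (K : Set V) (q : V → ι) (c : ℕ)
    (h : ∀ a, (fib K q a).ncard ≤ c) : K.ncard ≤ c * (q '' K).ncard := by
  classical
  have := Finset.card_le_mul_card_image (f := q) (toFinite K).toFinset c fun a _ => by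
    refine le_of_eq_of_le ?_ (h a)
    rw [← ncard_coe_finset]
    congr 1
    ext; simp [fib]
  rw [← ncard_eq_toFinset_card] at this
  refine this.trans (le_of_eq ?_)
  rw [← ncard_coe_finset]
  simp

lemma br_quot {V : Type} [Finite V] {G : SimpleGraph V} {d g : ℕ} (hd : StarFree G d)
    {q : V → V} (hq : ∀ v, q v = v ∨ G.Adj (q v) v)
    (h : ∀ (n : ℕ) (T : SimpleGraph (Fin n)) (B : Fin n → Finset V), IsTD G T B →
      ∃ t, ∃ S ⊆ B t, (∀ x ∈ S, ∀ y ∈ S, ¬ G.Adj x y) ∧ 3 * g * d + 1 ≤ S.card) :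
    Br (quot G univ q) univ g := by
  classical
  by_contra hc
  obtain ⟨n, T, B, hT, hB⟩ := exists_td _ _ hc
  have := Fintype.ofFinite V
  obtain ⟨t, S, hS, hind, hcard⟩ := h n T (fun t => Finset.univ.filter fun v => q v ∈ B t)
    ⟨hT.tree, fun v => by simpa using hT.cover (q v), fun u v e => by
      by_cases e' : q u = q v
      · simpa [e'] using hT.cover (q v)
      · simpa using hT.edge _ _ ⟨e', u, trivial, v, trivial, rfl, rfl, e⟩,
      fun v => by convert hT.conn (q v) using 3 <;> simp⟩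
  have h1 := Finset.card_le_mul_card_image_of_maps_to (f := q) (s := S) (t := B t)
    (fun v hv => (Finset.mem_filter.1 (hS hv)).2) d fun a _ => by
      have h2 := hd a ((S.filter fun v => q v = a).erase a) (fun x hx => by
        rw [Finset.mem_erase, Finset.mem_filter] at hx
        exact hx.2.2 ▸ (hq x).resolve_left fun e => hx.1 (e.symm.trans hx.2.2))
        fun x hx y hy => hind x (Finset.mem_filter.1 (Finset.mem_of_mem_erase hx)).1 y
          (Finset.mem_filter.1 (Finset.mem_of_mem_erase hy)).1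
      have h3 := Finset.pred_card_le_card_erase (s := S.filter fun v => q v = a) (a := a)
      omega
  have h2 := hB t
  nlinarith

/-- an induced subgraph of bounded degree with a large bramble -/
lemma bounded_degree (d n : ℕ) : ∃ D : ℕ, ∀ t : ℕ, ∃ f : ℕ, ∀ (V : Type) [Finite V]
    (G : SimpleGraph V) (W : Type) [Finite W] (F : SimpleGraph W), Nat.card W ≤ n →
    StarFree G d → ¬ IndMinor G F →
    (∀ (n : ℕ) (T : SimpleGraph (Fin n)) (B : Fin n → Finset V), IsTD G T B →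
      ∃ t, ∃ S ⊆ B t, (∀ x ∈ S, ∀ y ∈ S, ¬ G.Adj x y) ∧ f ≤ S.card) →
    ∃ X, DegLe G X D ∧ Br G X t := by
  obtain ⟨w, hw⟩ := star_partition d n
  obtain ⟨D, hD⟩ := deg_bound d (9 * w)
  refine ⟨D, fun t => ?_⟩
  obtain ⟨g, hg⟩ := round t
  refine ⟨3 * g * d + 1, fun V _ G W _ F hn hd hF h => ?_⟩
  obtain ⟨q, hq1, hq2, hq3⟩ := hw V G W F hn hd hF
  obtain ⟨T, hT, hS⟩ := hg V V G univ q (br_quot hd hq1 h)
  have h1 : ∀ a, T a ∪ q '' T a ⊆ fib univ q a := by
    rintro a _ (hv | ⟨v, hv, rfl⟩)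
    · exact (hT a).1 hv
    · exact ⟨trivial, (hq2 v).trans ((hT a).1 hv).2⟩
  refine ⟨_, hD V G _ hd fun K hK hK' => ?_, hS (fun a => T a ∪ q '' T a) fun a =>
    ⟨subset_union_left, h1 a, fun ⟨v, hv⟩ => ?_⟩⟩
  · refine (ncard_le_mul K q 9 fun a => ?_).trans (Nat.mul_le_mul_left _ (hq3 K hK'))
    refine (ncard_le_ncard (t := insert a (T a)) fun v hv => ?_).trans
      ((ncard_insert_le _ _).trans (Nat.succ_le_succ (hT a).2))
    obtain ⟨b, hb⟩ := mem_iUnion.1 (hK hv.1)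
    obtain rfl : b = a := (h1 b hb).2.symm.trans hv.2
    rcases hb with hb | ⟨u, hu, rfl⟩
    · exact Or.inr hb
    · exact Or.inl ((hT b).1 hu).2
  · have ha : a ∈ T a ∪ q '' T a := Or.inr ⟨v, hv, ((hT a).1 hv).2⟩
    refine conn_of_root ha fun b hb => ?_
    rcases hq1 b with e | e <;> rw [(h1 a hb).2] at e
    · exact e ▸ Reach.refl ha
    · exact reach_adj ha hb e

lemma grid_deg (k : ℕ) (w : Fin 3 × Fin (k + 2)) : ∃ w1 w2, w1 ≠ w2 ∧
    (SimpleGraph.pathGraph 3 □ SimpleGraph.pathGraph (k + 2)).Adj w w1 ∧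
    (SimpleGraph.pathGraph 3 □ SimpleGraph.pathGraph (k + 2)).Adj w w2 := by
  have key : ∀ (n : ℕ) (i : Fin (n + 2)), ∃ j, (SimpleGraph.pathGraph (n + 2)).Adj i j := by
    intro n i
    by_cases h : i.1 = 0
    · exact ⟨⟨1, by omega⟩, SimpleGraph.pathGraph_adj.2 (Or.inl (by simp [h]))⟩
    · exact ⟨⟨i.1 - 1, by omega⟩, SimpleGraph.pathGraph_adj.2 (Or.inr (by simp; omega))⟩
  obtain ⟨a, ha⟩ := key 1 w.1
  obtain ⟨b, hb⟩ := key k w.2
  exact ⟨(a, w.2), (w.1, b), fun e => ha.ne' (congrArg Prod.fst e), Or.inl ⟨ha, rfl⟩,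
    Or.inr ⟨hb, rfl⟩⟩

end MainAux

open MainAux

lemma IndMinor.of_embedding {V W W' : Type} {G : SimpleGraph V} {F : SimpleGraph W}
    {F' : SimpleGraph W'} (e : F' ↪g F) (h : IndMinor G F) : IndMinor G F' :=
  let ⟨Y, h1, h2⟩ := h
  ⟨fun w => Y (e w), ⟨fun _ => h1.conn _, fun _ _ h => h1.disj _ _ (e.injective.ne h),
    fun _ _ h => h1.adj _ _ (e.map_rel_iff.2 h)⟩,
    fun _ _ h h' => e.map_rel_iff.1 (h2 _ _ (e.injective.ne h) h')⟩

theorem main (k d : ℕ) : ∃ f : ℕ, ∀ (V : Type) [Finite V] (G : SimpleGraph V), StarFree G d →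
    (∀ (n : ℕ) (T : SimpleGraph (Fin n)) (B : Fin n → Finset V), IsTD G T B →
      ∃ t, ∃ S ⊆ B t, (∀ x ∈ S, ∀ y ∈ S, ¬ G.Adj x y) ∧ f ≤ S.card) →
    IndMinor G (SimpleGraph.pathGraph 3 □ SimpleGraph.pathGraph k) := by
  obtain ⟨g, hg⟩ := grid_minor (k + 2)
  obtain ⟨D, hD⟩ := bounded_degree d (3 * (k + 2))
  obtain ⟨c, hc⟩ := small_clusters D
  obtain ⟨g1, hg1⟩ := hc ((c + 1) * g + 1)
  obtain ⟨f, hf⟩ := hD g1
  refine ⟨f, fun V _ G hd h => ?_⟩
  have key : IndMinor G (SimpleGraph.pathGraph 3 □ SimpleGraph.pathGraph (k + 2)) := by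
    by_contra hF
    obtain ⟨X0, h1, h2⟩ := hf V G _ _ (by simp) hd hF h
    obtain ⟨X, -, h3, h4⟩ := hg1 V G X0 h1 h2
    exact hF (indMinor_of_clusters _ (grid_deg k) c g hg G X h3 h4)
  refine key.of_embedding ⟨⟨fun w => (w.1, Fin.castAdd 2 w.2), fun w w' e => ?_⟩, ?_⟩
  · exact Prod.ext (Prod.ext_iff.1 e).1 (Fin.castAdd_injective _ _ (Prod.ext_iff.1 e).2)
  · intro w w'
    simp [SimpleGraph.boxProd_adj, SimpleGraph.pathGraph_adj]

end Pool.Agent.Work.MP_7f4e13_co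
end

-- merged part: Pool.Agent.Work.MP_7f4e13_co.Hedge.Top
section
/-! The excluded grid theorem for brambles and the induced grid theorem. -/

namespace Pool.Agent.Work.MP_7f4e13_co.Hedge

open Pool.Agent.Work.MP_97603a_co Set MainAux

theorem clique_or_grid (k m : ℕ) : ∃ g : ℕ, ∀ (V : Type) [Finite V] (G : SimpleGraph V),
    Br G univ g → Minor G (SimpleGraph.pathGraph k □ SimpleGraph.pathGraph k) ∨
      Minor G (⊤ : SimpleGraph (Fin m)) := by
  classical
  obtain ⟨K, hK⟩ := demands k (m * m)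
  refine ⟨m * (K + 1) + (K + 1), fun V _ G h => ?_⟩
  obtain ⟨T, C, t1, t2, t3, t4⟩ := exists_ext m (K + 1) (Nat.succ_pos _) h
  let I : Finset (Fin m × Fin m) :=
    Finset.univ.filter fun e => e.1 ≠ e.2 ∧ ¬ Nb G (T e.1) (T e.2)
  have hI : ∀ e, e ∈ I ↔ e.1 ≠ e.2 ∧ ¬ Nb G (T e.1) (T e.2) := fun e => by simp [I]
  rcases hK V (Fin m × Fin m) G C (fun e => nbIn G C (T e.1)) (fun e => nbIn G C (T e.2)) I
    ((Finset.card_le_univ _).trans (by simp)) (fun e he =>
      ((t4 _ _ ((hI e).1 he).1).resolve_left ((hI e).1 he).2).mono (Nat.le_succ _))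
    with h | ⟨Y, y1, y2⟩
  · exact Or.inl h
  refine Or.inr ⟨fun i => T i ∪ ⋃ j : {j // (i, j) ∈ I}, Y (i, j), fun i => ?_, fun i j e => ?_,
    fun i j e => ?_⟩
  · refine (t1 i).union_iUnion (fun j => (y1 _ j.2).1) fun j => ?_
    obtain ⟨v, hv, -, u, hu, e⟩ := (y1 _ j.2).2.2.1
    exact Or.inr ⟨u, hu, v, hv, e⟩
  · simp only [disjoint_union_left, disjoint_union_right, disjoint_iUnion_left,
      disjoint_iUnion_right]
    exact ⟨⟨t2 i j e, fun a => ((t3 j).mono_right (y1 _ a.2).2.1).symm⟩,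
      fun a => ⟨(t3 i).mono_right (y1 _ a.2).2.1,
        fun b => y2 _ b.2 _ a.2 fun e' => e (congrArg Prod.fst e')⟩⟩
  · have e' : i ≠ j := e
    by_cases hn : Nb G (T i) (T j)
    · exact hn.mono subset_union_left subset_union_left
    · have hij : (i, j) ∈ I := (hI _).2 ⟨e', hn⟩
      obtain ⟨v, hv, -, u, hu, e⟩ := (y1 _ hij).2.2.2
      exact ⟨v, Or.inr (mem_iUnion.2 ⟨⟨j, hij⟩, hv⟩), u, Or.inl hu, e.symm⟩

/-- the excluded grid theorem -/
theorem grid_thm (k : ℕ) : ∃ g : ℕ, ∀ (V : Type) [Finite V] (G : SimpleGraph V),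
    Br G univ g → Minor G (SimpleGraph.pathGraph k □ SimpleGraph.pathGraph k) := by
  obtain ⟨g, hg⟩ := clique_or_grid k (k * k)
  refine ⟨g, fun V _ G h => ?_⟩
  rcases hg V G h with h | ⟨Y, h⟩
  · exact h
  · exact ⟨fun w => Y (finProdFinEquiv w), fun w => h.conn _,
      fun w w' e => h.disj _ _ (finProdFinEquiv.injective.ne e),
      fun w w' e => h.adj _ _ (finProdFinEquiv.injective.ne e.ne)⟩

lemma grid_deg' (k : ℕ) (w : Fin (k + 2) × Fin (k + 2)) : ∃ w1 w2, w1 ≠ w2 ∧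
    (SimpleGraph.pathGraph (k + 2) □ SimpleGraph.pathGraph (k + 2)).Adj w w1 ∧
    (SimpleGraph.pathGraph (k + 2) □ SimpleGraph.pathGraph (k + 2)).Adj w w2 := by
  have key : ∀ i : Fin (k + 2), ∃ j, (SimpleGraph.pathGraph (k + 2)).Adj i j := by
    intro i
    by_cases h : i.1 = 0
    · exact ⟨⟨1, by omega⟩, SimpleGraph.pathGraph_adj.2 (Or.inl (by simp [h]))⟩
    · exact ⟨⟨i.1 - 1, by omega⟩, SimpleGraph.pathGraph_adj.2 (Or.inr (by simp; omega))⟩
  obtain ⟨a, ha⟩ := key w.1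
  obtain ⟨b, hb⟩ := key w.2
  exact ⟨(a, w.2), (w.1, b), fun e => ha.ne' (congrArg Prod.fst e), Or.inl ⟨ha, rfl⟩,
    Or.inr ⟨hb, rfl⟩⟩

theorem main_grid (j k d : ℕ) : ∃ f : ℕ, ∀ (V : Type) [Finite V] (G : SimpleGraph V),
    StarFree G d →
    (∀ (n : ℕ) (T : SimpleGraph (Fin n)) (B : Fin n → Finset V), IsTD G T B →
      ∃ t, ∃ S ⊆ B t, (∀ x ∈ S, ∀ y ∈ S, ¬ G.Adj x y) ∧ f ≤ S.card) →
    IndMinor G (SimpleGraph.pathGraph j □ SimpleGraph.pathGraph k) := by
  obtain ⟨g, hg⟩ := grid_thm (j + k + 2)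
  obtain ⟨D, hD⟩ := bounded_degree d ((j + k + 2) * (j + k + 2))
  obtain ⟨c, hc⟩ := small_clusters D
  obtain ⟨g1, hg1⟩ := hc ((c + 1) * g + 1)
  obtain ⟨f, hf⟩ := hD g1
  refine ⟨f, fun V _ G hd h => ?_⟩
  have key : IndMinor G (SimpleGraph.pathGraph (j + k + 2) □ SimpleGraph.pathGraph (j + k + 2)) := by
    by_contra hF
    obtain ⟨X0, h1, h2⟩ := hf V G _ _ (by simp) hd hF h
    obtain ⟨X, -, h3, h4⟩ := hg1 V G X0 h1 h2
    exact hF (indMinor_of_clusters _ (grid_deg' (j + k)) c g hg G X h3 h4)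
  have a1 : j ≤ j + k + 2 := by omega
  have a2 : k ≤ j + k + 2 := by omega
  refine key.of_embedding ⟨⟨fun w => (Fin.castLE a1 w.1, Fin.castLE a2 w.2),
    fun w w' e => ?_⟩, ?_⟩
  · exact Prod.ext (Fin.castLE_injective a1 (Prod.ext_iff.1 e).1)
      (Fin.castLE_injective a2 (Prod.ext_iff.1 e).2)
  · intro w w'
    simp [SimpleGraph.boxProd_adj, SimpleGraph.pathGraph_adj]

end Pool.Agent.Work.MP_7f4e13_co.Hedge
end
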